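import Pool.Agent.Work.MP_8b6acb_ts_helper77.Step

/-!
# The light compensator (helper58)
-/

namespace R5

namespace TS

open Finset T7

variable {α : Type} [DecidableEq α]

/-- left minus right of the light compensator at level `k` -/
noncomputable def cmpD (τ : Finset α → Lab) (V : Finset α) (f : Finset α → ℝ) (p : List α)
    (k : ℕ) : ℝ :=
  iE τ p k * (if nx p k ⊆ AL τ V (pre p k) then 1 else 0) * f (pre p k) -
    iA τ p k * (((AL τ V (pre p k)).card : ℝ) / ((V.card : ℝ) - k) * f (pre p k))

theorem cmpD_snoc {τ : Finset α → Lab} {V : Finset α} {f : Finset α → ℝ} {p : List α} {x : α}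
    {k : ℕ} (h : k < p.length) : cmpD τ V f (p ++ [x]) k = cmpD τ V f p k := by
  unfold cmpD
  rw [iE_snoc h, nx_snoc h, pre_snoc h.le, iA_snoc h.le]

theorem cmpD_snoc_last {τ : Finset α → Lab} {V : Finset α} {f : Finset α → ℝ} {p : List α}
    {x : α} (hx : x ∈ V \ p.toFinset) :
    cmpD τ V f (p ++ [x]) p.length =
      iA τ p p.length * f p.toFinset *
        ((if x ∈ AL τ V p.toFinset then 1 else 0) -
          ((AL τ V p.toFinset).card : ℝ) / ((V.card : ℝ) - p.length)) := by
  have hx' := mem_sdiff.1 hx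
  have hxp : x ∉ p := fun hm => hx'.2 (List.mem_toFinset.2 hm)
  unfold cmpD
  rw [iE_snoc_last, nx_snoc_last hxp, pre_snoc le_rfl, pre_length, iA_snoc le_rfl]
  simp only [singleton_subset_iff]
  by_cases hm : x ∈ AL τ V p.toFinset
  · have hB : τ (insert x p.toFinset) = Lab.B := ((mem_filter.1 hm).2).2
    rw [if_pos hm, if_pos hB]
    ring
  · rw [if_neg hm]
    ring

theorem AL_subset (τ : Finset α → Lab) (V U : Finset α) : AL τ V U ⊆ V \ U := filter_subset _ _

/-- the average of the differences does not change in one step -/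
theorem cmp_step (τ : Finset α → Lab) (V : Finset α) (f : Finset α → ℝ) (p : List α)
    (hp : p.Nodup) (hpV : p.toFinset ⊆ V) (hl : p.length < V.card) :
    (∑ x ∈ V \ p.toFinset, ∑ k ∈ range (p ++ [x]).length, cmpD τ V f (p ++ [x]) k) /
        ((V \ p.toFinset).card : ℝ) = ∑ k ∈ range p.length, cmpD τ V f p k := by
  have hc : ((V \ p.toFinset).card : ℝ) = (V.card : ℝ) - p.length := by
    rw [card_sdiff_of_subset hpV, List.toFinset_card_of_nodup hp,
      Nat.cast_sub (by rw [← List.toFinset_card_of_nodup hp]; exact card_le_card hpV)]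
  have hpos : (0 : ℝ) < (V.card : ℝ) - p.length := by
    have : (p.length : ℝ) < V.card := by exact_mod_cast hl
    linarith
  have h1 : ∀ x ∈ V \ p.toFinset,
      ∑ k ∈ range (p ++ [x]).length, cmpD τ V f (p ++ [x]) k =
      ∑ k ∈ range p.length, cmpD τ V f p k +
        iA τ p p.length * f p.toFinset *
          ((if x ∈ AL τ V p.toFinset then 1 else 0) -
            ((AL τ V p.toFinset).card : ℝ) / ((V.card : ℝ) - p.length)) := by
    intro x hx
    rw [List.length_append, List.length_singleton, sum_range_succ, cmpD_snoc_last hx]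
    congr 1
    exact sum_congr rfl fun k hk => cmpD_snoc (mem_range.1 hk)
  have h2 : ∑ x ∈ V \ p.toFinset, (if x ∈ AL τ V p.toFinset then (1 : ℝ) else 0) =
      ((AL τ V p.toFinset).card : ℝ) := by
    rw [← sum_filter, filter_mem_eq_inter, inter_eq_right.2 (AL_subset τ V p.toFinset), sum_const,
      nsmul_eq_mul, mul_one]
  rw [sum_congr rfl h1, sum_add_distrib, ← mul_sum, sum_sub_distrib, h2, sum_const, sum_const,
    nsmul_eq_mul, nsmul_eq_mul, hc, mul_div_cancel₀ _ hpos.ne', sub_self, mul_zero, add_zero,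
    mul_div_cancel_left₀ _ hpos.ne']

/-- **the light compensator** -/
theorem comp_al (τ : Finset α → Lab) (V : Finset α) (f : Finset α → ℝ) :
    Av V (fun π => ∑ k ∈ range V.card,
        iE τ π k * (if nx π k ⊆ AL τ V (pre π k) then 1 else 0) * f (pre π k)) =
      Av V (fun π => ∑ i ∈ range V.card,
        iA τ π i * (((AL τ V (pre π i)).card : ℝ) / ((V.card : ℝ) - i) * f (pre π i))) := by
  have h0 : Av V (fun π => ∑ k ∈ range π.length, cmpD τ V f π k) = 0 := by
    apply le_antisymm
    · have := step_le (V := V) (fun π => ∑ k ∈ range π.length, cmpD τ V f π k)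
        (fun p hp hpV hl => (cmp_step τ V f p hp hpV hl).le)
      simpa using this
    · have := step (V := V) (fun π => ∑ k ∈ range π.length, cmpD τ V f π k)
        (fun p hp hpV hl => (cmp_step τ V f p hp hpV hl).ge)
      simpa using this
  have h1 : Av V (fun π => ∑ k ∈ range π.length, cmpD τ V f π k) =
      Av V (fun π => ∑ k ∈ range V.card,
        iE τ π k * (if nx π k ⊆ AL τ V (pre π k) then 1 else 0) * f (pre π k)) -
      Av V (fun π => ∑ i ∈ range V.card,
        iA τ π i * (((AL τ V (pre π i)).card : ℝ) / ((V.card : ℝ) - i) * f (pre π i))) := by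
    rw [← Av_sub]
    refine Av_congr fun π hπ => ?_
    rw [length_of_mem hπ]
    unfold cmpD
    rw [sum_sub_distrib]
  linarith

/-- the compensator with `f W = |V| - |W|` -/
theorem comp_al_card (τ : Finset α → Lab) (V : Finset α) :
    Av V (fun π => ∑ i ∈ range V.card, iA τ π i * ((AL τ V (pre π i)).card : ℝ)) =
      Av V (fun π => ∑ k ∈ range V.card,
        iE τ π k * (if nx π k ⊆ AL τ V (pre π k) then 1 else 0) * ((V.card : ℝ) - k)) := by
  have h := comp_al τ V (fun W => (V.card : ℝ) - W.card)
  have e1 : Av V (fun π => ∑ k ∈ range V.card,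
        iE τ π k * (if nx π k ⊆ AL τ V (pre π k) then 1 else 0) * ((V.card : ℝ) - k)) =
      Av V (fun π => ∑ k ∈ range V.card,
        iE τ π k * (if nx π k ⊆ AL τ V (pre π k) then 1 else 0) *
          ((V.card : ℝ) - (pre π k).card)) :=
    Av_congr fun π hπ => sum_congr rfl fun k hk => by
      rw [card_pre_of_mem hπ (mem_range.1 hk).le]
  rw [e1, h]
  refine Av_congr fun π hπ => sum_congr rfl fun i hi => ?_
  have hi' := mem_range.1 hi
  rw [card_pre_of_mem hπ hi'.le]
  have hpos : (0 : ℝ) < (V.card : ℝ) - i := by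
    have : (i : ℝ) < V.card := by exact_mod_cast hi'
    linarith
  rw [div_mul_cancel₀ _ hpos.ne']

/-- the charges through the light exits -/
theorem comp_charge (τ : Finset α → Lab) (V : Finset α) :
    Av V (fun π => ∑ i ∈ range V.card,
        iA τ π i * cc V.card (AL τ V (pre π i)).card (V.card - i)) =
      Av V (fun π => ∑ k ∈ range V.card,
        iE τ π k * (if nx π k ⊆ AL τ V (pre π k) then 1 else 0) *
          (lamn V.card * ((V.card : ℝ) - 1 - k) +
            Lf V.card ((AL τ V (pre π k)).card : ℝ))) -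
      Av V (fun π => ∑ i ∈ range V.card,
        iA τ π i * Lf V.card ((AL τ V (pre π i)).card : ℝ)) := by
  have h1 := comp_al_card τ V
  have h2 := comp_al τ V (fun W => Lf V.card ((AL τ V W).card : ℝ) - lamn V.card)
  have e1 : Av V (fun π => ∑ i ∈ range V.card,
        iA τ π i * cc V.card (AL τ V (pre π i)).card (V.card - i)) =
      lamn V.card * Av V (fun π => ∑ i ∈ range V.card,
        iA τ π i * ((AL τ V (pre π i)).card : ℝ)) -
      Av V (fun π => ∑ i ∈ range V.card,
        iA τ π i * Lf V.card ((AL τ V (pre π i)).card : ℝ)) +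
      Av V (fun π => ∑ i ∈ range V.card,
        iA τ π i * (((AL τ V (pre π i)).card : ℝ) / ((V.card : ℝ) - i) *
          (Lf V.card ((AL τ V (pre π i)).card : ℝ) - lamn V.card))) := by
    rw [← Av_mul, ← Av_sub, ← Av_add]
    refine Av_congr fun π _ => ?_
    rw [mul_sum, ← sum_sub_distrib, ← sum_add_distrib]
    refine sum_congr rfl fun i hi => ?_
    unfold cc
    rw [Nat.cast_sub (mem_range.1 hi).le]
    ring
  have e2 : Av V (fun π => ∑ k ∈ range V.card,
        iE τ π k * (if nx π k ⊆ AL τ V (pre π k) then 1 else 0) *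
          (lamn V.card * ((V.card : ℝ) - 1 - k) +
            Lf V.card ((AL τ V (pre π k)).card : ℝ))) =
      lamn V.card * Av V (fun π => ∑ k ∈ range V.card,
        iE τ π k * (if nx π k ⊆ AL τ V (pre π k) then 1 else 0) * ((V.card : ℝ) - k)) +
      Av V (fun π => ∑ k ∈ range V.card,
        iE τ π k * (if nx π k ⊆ AL τ V (pre π k) then 1 else 0) *
          (Lf V.card ((AL τ V (pre π k)).card : ℝ) - lamn V.card)) := by
    rw [← Av_mul, ← Av_add]
    refine Av_congr fun π _ => ?_
    rw [mul_sum, ← sum_add_distrib]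
    refine sum_congr rfl fun k _ => ?_
    ring
  rw [e1, e2, h1, ← h2]
  ring

end TS

end R5
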