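import Pool.Agent.Work.MP_8b6acb_ts_helper77.Point
import Pool.Agent.Work.MP_8b6acb_ts_helper77.COMP
import Pool.Agent.Work.MP_8b6acb_tk.Side0K

/-!
# The statewise lemma for the set kernel (helper77)
-/

namespace R5

namespace TS

open Finset T7

variable {α : Type} [DecidableEq α]

/-- summation by parts, shifted -/
theorem sum_exit' (τ : Finset α → Lab) (π : List α) (m : ℕ) (f : ℕ → ℝ) :
    ∑ k ∈ range m, (iE τ π k + iX τ π k) * ∑ j ∈ range k, f j =
      ∑ j ∈ range m, iA τ π (j + 1) * f j - iA τ π m * ∑ j ∈ range m, f j := by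
  induction m with
  | zero => simp
  | succ m ih =>
    rw [sum_range_succ, ih, iE_add_iX, sum_range_succ (fun j => iA τ π (j + 1) * f j) m,
      sum_range_succ f m]
    ring

theorem lamn_nonneg (m : ℕ) (hm : 1 ≤ m) : 0 ≤ lamn m := by
  rcases Nat.eq_or_lt_of_le hm with h | h
  · rw [← h]
    unfold lamn
    simp
  · exact (lamn_pos h).le

theorem Lf_nonneg {m : ℕ} (hm : 1 ≤ m) {r : ℝ} (h0 : 0 ≤ r) (h1 : r ≤ 1) : 0 ≤ Lf m r := by
  have hm' : (1 : ℝ) ≤ m := by exact_mod_cast hm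
  unfold Lf
  rw [neg_nonneg]
  apply Real.log_nonpos
  · rw [sub_nonneg, div_le_one (by linarith)]
    linarith
  · have := div_nonneg h0 (by linarith : (0 : ℝ) ≤ m)
    linarith

/-- the demand at the exit through `x` -/
noncomputable def Dem (τ : Finset α → Lab) (V : Finset α) (π : List α) (k : ℕ) (x : α) : ℝ :=
  if τ {x} = Lab.B then lamn V.card * dc τ x π k else Dx τ V x π k

/-- part of `y` at an edge exit -/
noncomputable def eY (τ : Finset α → Lab) (ρ : α → ℝ) (V : Finset α) (π : List α) (k : ℕ)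
    (y : α) : ℝ :=
  if τ {y} = Lab.B then (if y ∈ nx π k then -Real.log (ρ y) -
      (lamn V.card - Lf V.card (ρ y)) * dc τ y π k else 0) -
    ∑ j ∈ range k, pnl τ ρ V (pre π j) y
  else (if y ∈ pre π k then 0 else if y ∈ nx π k then
        -Real.log (ρ y) + Cx τ ρ V y π k - Dx τ V y π k else Cx τ ρ V y π k) +
    ∑ j ∈ range k, Wx τ ρ V (pre π j) y

/-- part of `y` at a vertex exit -/
noncomputable def xY (τ : Finset α → Lab) (ρ : α → ℝ) (V : Finset α) (π : List α) (k : ℕ)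
    (y : α) : ℝ :=
  if τ {y} = Lab.B then -(∑ j ∈ range k, pnl τ ρ V (pre π j) y) - pnl τ ρ V (pre π k) y
  else (if y ∈ pre π (k + 1) then 0 else Cx τ ρ V y π k) +
    ∑ j ∈ range k, Wx τ ρ V (pre π j) y

/-- the functionals of the elements, by exits -/
theorem YE (τ : Finset α → Lab) (ρ : α → ℝ) {V : Finset α} (hV : τ V ≠ Lab.A) {π : List α}
    (hπ : π ∈ seqs V.card V) (y : α) :
    (if τ {y} = Lab.B then LY τ ρ V y π else HY τ ρ V y π) =
      ∑ k ∈ range V.card, (iE τ π k * eY τ ρ V π k y + iX τ π k * xY τ ρ V π k y) := by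
  have hz : iA τ π V.card = 0 := iA_top hV hπ le_rfl
  have hl : π.length = V.card := length_of_mem hπ
  by_cases hB : τ {y} = Lab.B
  · rw [if_pos hB]
    have h1 := sum_exit' τ π V.card (fun j => pnl τ ρ V (pre π j) y)
    rw [hz, zero_mul, sub_zero] at h1
    unfold LY eY xY
    simp only [if_pos hB]
    rw [hl]
    have e1 : ∑ k ∈ range V.card, (iE τ π k * (if y ∈ nx π k then -Real.log (ρ y) -
        (lamn V.card - Lf V.card (ρ y)) * dc τ y π k else 0) -
      (iA τ π (k + 1) + iX τ π k) * pnl τ ρ V (pre π k) y) =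
      ∑ k ∈ range V.card, iE τ π k * (if y ∈ nx π k then -Real.log (ρ y) -
        (lamn V.card - Lf V.card (ρ y)) * dc τ y π k else 0) -
      ∑ k ∈ range V.card, iA τ π (k + 1) * pnl τ ρ V (pre π k) y -
      ∑ k ∈ range V.card, iX τ π k * pnl τ ρ V (pre π k) y := by
      rw [← sum_sub_distrib, ← sum_sub_distrib]
      refine sum_congr rfl fun k _ => ?_
      ring
    rw [e1, ← h1, ← sum_sub_distrib, ← sum_sub_distrib]
    refine sum_congr rfl fun k _ => ?_
    ring
  · rw [if_neg hB]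
    have h1 := sum_exit' τ π V.card (fun j => Wx τ ρ V (pre π j) y)
    rw [hz, zero_mul, sub_zero] at h1
    unfold HY eY xY
    simp only [if_neg hB]
    rw [hl, sum_add_distrib, ← h1, ← sum_add_distrib]
    refine sum_congr rfl fun k _ => ?_
    ring

/-- the bound at an edge exit -/
theorem point_E {τ : Finset α → Lab} {ρ : α → ℝ} {V : Finset α}
    (hρ : ∀ x ∈ V, 0 < ρ x ∧ ρ x ≤ 1) {π : List α}
    (hπ : π ∈ seqs V.card V) {k : ℕ} (hk : k < V.card) (hA : allA τ π k) :
    ∑ j ∈ range k, Lf V.card (AL τ V (pre π j)).card + ∑ x ∈ nx π k, Dem τ V π k x +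
      ∑ y ∈ V, eY τ ρ V π k y ≤
      ∑ x ∈ nx π k, (-Real.log (ρ x)) +
      ∑ j ∈ range k, (Lf V.card (∑ x ∈ V \ pre π k, ρ x) + Real.log (((k : ℝ) - j) /
        ((k : ℝ) - j - ((fin τ (pre π k) (pre π j)).card : ℝ)))) := by
  have h1 := point_sum hρ hπ (le_refl k) hk.le hA
  have hnx : nx π k ⊆ V := sdiff_subset.trans (pre_subset_of_mem hπ _)
  have h2 : ∑ y ∈ V, eY τ ρ V π k y ≤ ∑ y ∈ V, (tY τ ρ V π k k k y +
      (if y ∈ nx π k then -Real.log (ρ y) - Dem τ V π k y else 0)) := by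
    refine sum_le_sum fun y hy => ?_
    have hκ : 0 ≤ (dc τ y π k : ℝ) * Lf V.card (ρ y) :=
      mul_nonneg (Nat.cast_nonneg _) (Lf_nonneg (by omega) (hρ y hy).1.le (hρ y hy).2)
    unfold eY tY Dem
    by_cases hB : τ {y} = Lab.B
    · simp only [if_pos hB]
      by_cases hn : y ∈ nx π k
      · have hp : y ∉ pre π k := (mem_sdiff.1 hn).2
        rw [if_pos hn, if_pos hn, if_neg hp]
        linarith
      · rw [if_neg hn, if_neg hn]
        split_ifs
        · linarith
        · linarith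
    · simp only [if_neg hB]
      by_cases hp : y ∈ pre π k
      · have hn : y ∉ nx π k := fun h => (mem_sdiff.1 h).2 hp
        rw [if_pos hp, if_neg hn, if_pos hp]
        linarith
      · rw [if_neg hp, if_neg hp]
        split_ifs
        · linarith
        · linarith
  rw [sum_add_distrib, ← sum_filter, filter_mem_eq_inter, inter_eq_right.2 hnx,
    sum_sub_distrib] at h2
  linarith

/-- the bound at a vertex exit -/
theorem point_X {τ : Finset α → Lab} {ρ : α → ℝ} {V : Finset α}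
    (hρ : ∀ x ∈ V, 0 < ρ x ∧ ρ x ≤ 1) {π : List α}
    (hπ : π ∈ seqs V.card V) {k : ℕ} (hk : k < V.card) (hA : exX τ π k) :
    ∑ j ∈ range (k + 1), Lf V.card (AL τ V (pre π j)).card +
      ∑ y ∈ V, xY τ ρ V π k y ≤
      ∑ j ∈ range k, (Lf V.card (∑ x ∈ V \ pre π (k + 1), ρ x) +
        Real.log (((k : ℝ) + 1 - j) /
        ((k : ℝ) + 1 - j - ((fin τ (pre π (k + 1)) (pre π j)).card : ℝ)))) +
        Lf V.card (∑ x ∈ V \ pre π (k + 1), ρ x) := by
  have h1 := point_sum hρ hπ (Nat.le_succ k) hk hA.1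
  push_cast at h1
  have h3 := levX τ ρ (V := V) (O := pre π (k + 1)) (W := pre π k) hρ
    (pre_subset_of_mem hπ _) (by
      rw [card_pre_of_mem hπ hk, card_pre_of_mem hπ hk.le]) (by
      intro z hz
      have hz' := mem_AL.1 hz
      refine mem_sdiff.2 ⟨hz'.1.1, fun hzp => ?_⟩
      obtain ⟨x, _, _, _, hx⟩ := pre_succ_eq hπ hk
      rw [hx, mem_insert] at hzp
      rcases hzp with h | h
      · subst h
        have h4 := hA.2
        rw [hx, hz'.2.2] at h4
        exact absurd h4 (by decide)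
      · exact hz'.1.2 h)
  have h2 : ∑ y ∈ V, xY τ ρ V π k y ≤ ∑ y ∈ V, (tY τ ρ V π (k + 1) k k y -
      pnl τ ρ V (pre π k) y) := by
    refine sum_le_sum fun y hy => ?_
    have hκ : 0 ≤ (dc τ y π k : ℝ) * Lf V.card (ρ y) :=
      mul_nonneg (Nat.cast_nonneg _) (Lf_nonneg (by omega) (hρ y hy).1.le (hρ y hy).2)
    unfold xY tY
    by_cases hB : τ {y} = Lab.B
    · simp only [if_pos hB]
      split_ifs
      · linarith
      · linarith
    · simp only [if_neg hB]
      rw [pnl_heavy hB, sub_zero]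
  rw [sum_sub_distrib] at h2
  rw [sum_range_succ]
  linarith

/-- the cost before the Gibbs step -/
noncomputable def cstG (τ : Finset α → Lab) (ρ : α → ℝ) (V : Finset α) (π : List α) : ℝ :=
  ∑ k ∈ range V.card, (iE τ π k * (∑ x ∈ nx π k, (-Real.log (ρ x)) +
      ∑ j ∈ range k, (Lf V.card (∑ x ∈ V \ pre π k, ρ x) + Real.log (((k : ℝ) - j) /
        ((k : ℝ) - j - ((fin τ (pre π k) (pre π j)).card : ℝ))))) +
    iX τ π k * (∑ j ∈ range k, (Lf V.card (∑ x ∈ V \ pre π (k + 1), ρ x) +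
        Real.log (((k : ℝ) + 1 - j) /
        ((k : ℝ) + 1 - j - ((fin τ (pre π (k + 1)) (pre π j)).card : ℝ)))) +
        Lf V.card (∑ x ∈ V \ pre π (k + 1), ρ x)))

/-- the Gibbs step -/
theorem cstG_le (τ : Finset α → Lab) (ρ : α → ℝ) (V : Finset α) :
    Av V (cstG τ ρ V) ≤ Av V (K.cstK τ ρ V) := by
  have h1 := gib_E_sum τ V
  have h2 := gib_X_sum τ V
  set c0 : List α → ℝ := fun π => ∑ k ∈ range V.card,
    (iE τ π k * (∑ x ∈ nx π k, (-Real.log (ρ x)) +
      (k : ℝ) * Lf V.card (∑ x ∈ V \ pre π k, ρ x)) +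
     iX τ π k * (((k : ℝ) + 1) * Lf V.card (∑ x ∈ V \ pre π (k + 1), ρ x))) with hc0
  have e1 : Av V (cstG τ ρ V) = Av V c0 +
      Av V (fun π => ∑ k ∈ range V.card, iE τ π k * ∑ j ∈ range k, Real.log (((k : ℝ) - j) /
      ((k : ℝ) - j - ((fin τ (pre π k) (pre π j)).card : ℝ)))) +
      Av V (fun π => ∑ k ∈ range V.card, iX τ π k * ∑ j ∈ range k,
        Real.log (((k : ℝ) + 1 - j) /
      ((k : ℝ) + 1 - j - ((fin τ (pre π (k + 1)) (pre π j)).card : ℝ)))) := by
    rw [← Av_add, ← Av_add]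
    refine Av_congr fun π _ => ?_
    rw [hc0]
    unfold cstG
    simp only []
    rw [← sum_add_distrib, ← sum_add_distrib]
    refine sum_congr rfl fun k _ => ?_
    rw [sum_add_distrib, sum_add_distrib, sum_const, sum_const, card_range, nsmul_eq_mul,
      nsmul_eq_mul]
    ring
  have e2 : Av V (K.cstK τ ρ V) = Av V c0 +
      Av V (fun π => ∑ k ∈ range V.card, iE τ π k * (-Real.log (fw τ (pre π k)))) +
      Av V (fun π => ∑ k ∈ range V.card, iX τ π k * (-Real.log (fwb τ (pre π (k + 1))))) := by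
    rw [← Av_add, ← Av_add]
    refine Av_congr fun π _ => ?_
    rw [hc0]
    unfold K.cstK
    simp only []
    rw [← sum_add_distrib, ← sum_add_distrib]
    refine sum_congr rfl fun k _ => ?_
    ring
  rw [e1, e2]
  linarith

/-- the functional of the elements -/
noncomputable def YY (τ : Finset α → Lab) (ρ : α → ℝ) (V : Finset α) (π : List α) : ℝ :=
  ∑ y ∈ V, (if τ {y} = Lab.B then LY τ ρ V y π else HY τ ρ V y π)

theorem YY_nonneg (τ : Finset α → Lab) (ρ : α → ℝ) {V : Finset α} (hV : τ V = Lab.B)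
    (hρ : ∀ x ∈ V, 0 < ρ x ∧ ρ x ≤ 1) : 0 ≤ Av V (YY τ ρ V) := by
  have e : Av V (YY τ ρ V) = ∑ y ∈ V, Av V (fun π =>
      if τ {y} = Lab.B then LY τ ρ V y π else HY τ ρ V y π) := by
    rw [← Av_sum]
    rfl
  rw [e]
  refine sum_nonneg fun y hy => ?_
  by_cases hB : τ {y} = Lab.B
  · simp only [if_pos hB]
    exact light_Av τ ρ V y hB (hρ y hy)
  · simp only [if_neg hB]
    exact heavy_Av τ ρ V y hV hy hB (hρ y hy)

/-- **the pointwise inequality** -/
theorem point {τ : Finset α → Lab} {ρ : α → ℝ} {V : Finset α} (hV : τ V ≠ Lab.A)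
    (hρ : ∀ x ∈ V, 0 < ρ x ∧ ρ x ≤ 1) {π : List α} (hπ : π ∈ seqs V.card V) :
    ∑ i ∈ range V.card, iA τ π i * Lf V.card (AL τ V (pre π i)).card +
      ∑ k ∈ range V.card, iE τ π k * (∑ x ∈ nx π k, Dem τ V π k x -
        Lf V.card (AL τ V (pre π k)).card) + YY τ ρ V π ≤ cstG τ ρ V π := by
  have hz : iA τ π V.card = 0 := iA_top hV hπ le_rfl
  have h1 := sum_exit τ π V.card (fun j => Lf V.card (AL τ V (pre π j)).card)
  rw [hz, zero_mul, sub_zero] at h1
  have h2 : YY τ ρ V π = ∑ k ∈ range V.card,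
      (iE τ π k * ∑ y ∈ V, eY τ ρ V π k y + iX τ π k * ∑ y ∈ V, xY τ ρ V π k y) := by
    unfold YY
    rw [sum_congr rfl fun y _ => YE τ ρ hV hπ y, sum_comm]
    refine sum_congr rfl fun k _ => ?_
    rw [sum_add_distrib, ← mul_sum, ← mul_sum]
  rw [← h1, h2, ← sum_add_distrib, ← sum_add_distrib]
  unfold cstG
  refine sum_le_sum fun k hk => ?_
  rw [mem_range] at hk
  have hE : iE τ π k * (∑ j ∈ range k, Lf V.card (AL τ V (pre π j)).card +
      ∑ x ∈ nx π k, Dem τ V π k x + ∑ y ∈ V, eY τ ρ V π k y) ≤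
      iE τ π k * (∑ x ∈ nx π k, (-Real.log (ρ x)) +
      ∑ j ∈ range k, (Lf V.card (∑ x ∈ V \ pre π k, ρ x) + Real.log (((k : ℝ) - j) /
        ((k : ℝ) - j - ((fin τ (pre π k) (pre π j)).card : ℝ))))) := by
    by_cases h : exE τ π k
    · rw [iE_pos h, one_mul, one_mul]
      exact point_E hρ hπ hk h.1
    · rw [iE_neg h, zero_mul, zero_mul]
  have hX : iX τ π k * (∑ j ∈ range (k + 1), Lf V.card (AL τ V (pre π j)).card +
      ∑ y ∈ V, xY τ ρ V π k y) ≤
      iX τ π k * (∑ j ∈ range k, (Lf V.card (∑ x ∈ V \ pre π (k + 1), ρ x) +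
        Real.log (((k : ℝ) + 1 - j) /
        ((k : ℝ) + 1 - j - ((fin τ (pre π (k + 1)) (pre π j)).card : ℝ)))) +
        Lf V.card (∑ x ∈ V \ pre π (k + 1), ρ x)) := by
    by_cases h : exX τ π k
    · rw [iX_pos h, one_mul, one_mul]
      exact point_X hρ hπ hk h
    · rw [iX_neg h, zero_mul, zero_mul]
  have e1 := sum_range_succ (fun j => Lf V.card (AL τ V (pre π j)).card) k
  rw [e1] at hX ⊢
  linarith

/-- levels without edge exit are dead for the exit element -/
theorem n0_le_dc {τ : Finset α → Lab} {V : Finset α} {π : List α} (hπ : π ∈ seqs V.card V)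
    {k : ℕ} (hk : k < V.card) (hE : exE τ π k) {x : α} (hx : x ∈ nx π k) :
    n0 τ V π k ≤ (dc τ x π k : ℝ) := by
  have hxV : x ∈ V := pre_subset_of_mem hπ _ (mem_sdiff.1 hx).1
  have hxk : x ∉ pre π k := (mem_sdiff.1 hx).2
  have hins : insert x (pre π k) = pre π (k + 1) := by
    obtain ⟨z, _, _, hz, hz2⟩ := pre_succ_eq hπ hk
    rw [hz, mem_singleton] at hx
    rw [hx, hz2]
  unfold n0 dc
  rw [card_filter]
  push_cast
  rcases Nat.eq_zero_or_pos k with h0 | h0
  · subst h0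
    simp
  · have e1 : Icc 1 k = insert k (Ico 1 k) := by
      ext i
      simp only [mem_Icc, mem_insert, mem_Ico]
      omega
    rw [e1, sum_insert (by simp)]
    have e2 : (if ∀ x ∈ V \ pre π k, τ (insert x (pre π k)) ≠ Lab.B then (1 : ℝ) else 0) = 0 := by
      rw [if_neg]
      intro h
      apply h x (mem_sdiff.2 ⟨hxV, hxk⟩)
      rw [hins]
      exact hE.2
    rw [e2, zero_add]
    refine sum_le_sum fun i hi => ?_
    rw [mem_Ico] at hi
    split_ifs with h1 h2 h2
    · exact le_rfl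
    · exfalso
      apply h2
      exact h1 x (mem_sdiff.2 ⟨hxV, fun h3 => hxk (pre_mono hi.2.le h3)⟩)
    · norm_num
    · exact le_rfl

/-- **the statewise lemma for the set kernel, one state** -/
theorem CTS_Av (τ : Finset α → Lab) (ρ : α → ℝ) (V : Finset α) (hne : V.Nonempty)
    (hV : τ V = Lab.B) (hρ : ∀ x ∈ V, 0 < ρ x ∧ ρ x ≤ 1) :
    lamn V.card * Av V (fun π => ∑ k ∈ range V.card,
        iE τ π k * (((V.card : ℝ) - 1 - k) + n0 τ V π k)) ≤
      Av V (K.cstK τ ρ V) + Av V (fun π => ∑ i ∈ range V.card,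
        iA τ π i * cc V.card (AL τ V (pre π i)).card (V.card - i)) := by
  have hm : 1 ≤ V.card := card_pos.2 hne
  have hlam := lamn_nonneg V.card hm
  have hVA : τ V ≠ Lab.A := by rw [hV]; decide
  have h1 : Av V (fun π => ∑ i ∈ range V.card, iA τ π i * Lf V.card (AL τ V (pre π i)).card +
      ∑ k ∈ range V.card, iE τ π k * (∑ x ∈ nx π k, Dem τ V π k x -
        Lf V.card (AL τ V (pre π k)).card) + YY τ ρ V π) ≤ Av V (cstG τ ρ V) :=
    Av_mono fun π hπ => point hVA hρ hπ
  rw [Av_add, Av_add] at h1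
  have h2 := YY_nonneg τ ρ hV hρ
  have h3 := cstG_le τ ρ V
  have h4 := comp_charge τ V
  have h5 : lamn V.card * Av V (fun π => ∑ k ∈ range V.card,
        iE τ π k * (((V.card : ℝ) - 1 - k) + n0 τ V π k)) ≤
      Av V (fun π => ∑ k ∈ range V.card, iE τ π k * (∑ x ∈ nx π k, Dem τ V π k x -
        Lf V.card (AL τ V (pre π k)).card)) +
      Av V (fun π => ∑ k ∈ range V.card,
        iE τ π k * (if nx π k ⊆ AL τ V (pre π k) then 1 else 0) *
          (lamn V.card * ((V.card : ℝ) - 1 - k) +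
            Lf V.card ((AL τ V (pre π k)).card : ℝ))) := by
    rw [← Av_mul, ← Av_add]
    apply Av_mono
    intro π hπ
    rw [mul_sum, ← sum_add_distrib]
    refine sum_le_sum fun k hk => ?_
    rw [mem_range] at hk
    by_cases hE : exE τ π k
    · rw [iE_pos hE]
      obtain ⟨x, hxV, hxk, hx, hx2⟩ := pre_succ_eq hπ hk
      have hxn : x ∈ nx π k := by rw [hx]; exact mem_singleton_self x
      have h6 := n0_le_dc hπ hk hE hxn
      have h7 := mul_le_mul_of_nonneg_left h6 hlam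
      rw [hx, sum_singleton]
      unfold Dem
      by_cases hB : τ {x} = Lab.B
      · have hin : ({x} : Finset α) ⊆ AL τ V (pre π k) := by
          rw [singleton_subset_iff]
          refine mem_AL.2 ⟨⟨hxV, hxk⟩, hB, ?_⟩
          rw [← hx2]
          exact hE.2
        rw [if_pos hB, if_pos hin]
        linarith
      · have hin : ¬ ({x} : Finset α) ⊆ AL τ V (pre π k) := by
          rw [singleton_subset_iff]
          exact fun h => hB (mem_AL.1 h).2.1
        rw [if_neg hB, if_neg hin]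
        unfold Dx
        linarith
    · rw [iE_neg hE]
      simp
  linarith

end TS

namespace K

open Finset T7

variable {α : Type} [DecidableEq α]

/-- **the statewise lemma** -/
theorem StateK_of (τ : Finset α → Lab) (D : Finset α) (ρ : Finset α → α → ℝ)
    (hρ : ∀ X ⊆ D, ∀ g ∈ D \ X, 0 < ρ X g ∧ ρ X g ≤ 1) : StateK τ D ρ := by
  intro W hW hne hB
  refine TS.CTS_Av τ (ρ (D \ W)) W hne hB fun x hx => ?_
  exact hρ (D \ W) sdiff_subset x (by
    rw [sdiff_sdiff_right_self, inf_eq_inter, inter_eq_right.2 hW]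
    exact hx)

end K

end R5
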