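import Pool.Agent.Work.MP_8b6acb_ti.Chg

/-!
# The Gibbs step for the set kernel (helper25)

`fin τ U W` = the elements of `U` outside `W` that cannot be appended to `W` in an initial A-run.
(i) the average of the good orders weighted with the inverse conditional probabilities is at
most `1`; (ii) the credits of the final elements are paid by `- log fw`, `- log fwb`.
-/

namespace R5

namespace TS

open Finset

variable {α : Type} [DecidableEq α]

/-- The final elements. -/
def fin (τ : Finset α → Lab) (U W : Finset α) : Finset α :=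
  (U \ W).filter (fun y => τ (insert y W) ≠ Lab.A)

/-- The inverse of the conditional probability of an A-step. -/
noncomputable def gf (τ : Finset α → Lab) (U W : Finset α) (n : ℕ) : ℝ :=
  ((U.card : ℝ) - n) / ((U.card : ℝ) - n - ((fin τ U W).card : ℝ))

theorem fin_card_le (τ : Finset α → Lab) (U W : Finset α) :
    (fin τ U W).card ≤ (U \ W).card := card_le_card (filter_subset _ _)

/-- the steps that stay in A -/
theorem card_stay (τ : Finset α → Lab) {U W : Finset α} (h : W ⊆ U) :
    (((U \ W).filter (fun y => τ (insert y W) = Lab.A)).card : ℝ) =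
      (U.card : ℝ) - W.card - ((fin τ U W).card : ℝ) := by
  have h1 := card_filter_add_card_filter_not (s := U \ W) (fun y => τ (insert y W) = Lab.A)
  have h2 : (((U \ W).filter (fun y => τ (insert y W) = Lab.A)).card : ℝ) +
      ((fin τ U W).card : ℝ) = ((U \ W).card : ℝ) := by
    unfold fin
    exact_mod_cast h1
  rw [card_sdiff_cast h] at h2
  linarith

/-- one step of the weighted average -/
theorem gstep_le (τ : Finset α → Lab) {U W : Finset α} (h : W ⊆ U) (hne : (U \ W).Nonempty) :
    Av (U \ W) (fun π => gf τ U W W.card * (if τ (W ∪ pre π 1) = Lab.A then 1 else 0)) ≤ 1 := by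
  rw [Av_mul, Av_cons hne]
  have h1 : ∀ g ∈ U \ W, Av ((U \ W).erase g)
      (fun π => if τ (W ∪ pre (g :: π) 1) = Lab.A then (1 : ℝ) else 0) =
      if τ (insert g W) = Lab.A then 1 else 0 := by
    intro g _
    have e : ∀ π : List α, W ∪ pre (g :: π) 1 = insert g W := by
      intro π
      rw [pre_cons_succ, pre_zero, union_comm]
      rfl
    simp only [e]
    exact Av_const _ _
  rw [sum_congr rfl h1, ← sum_filter, sum_const, nsmul_eq_mul, mul_one, card_stay τ h,
    card_sdiff_cast h]
  unfold gf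
  have hn : (0 : ℝ) < (U.card : ℝ) - W.card := by
    rw [← card_sdiff_cast h]
    exact_mod_cast card_pos.2 hne
  rcases eq_or_ne ((U.card : ℝ) - W.card - ((fin τ U W).card : ℝ)) 0 with h0 | h0
  · rw [h0]
    simp
  · rw [div_mul_div_comm, mul_comm, div_self]
    exact mul_ne_zero h0 hn.ne'

/-- (i) -/
theorem gib_prod (τ : Finset α → Lab) (U : Finset α) : ∀ n : ℕ, n ≤ U.card →
    Av U (fun π => iA τ π n * ∏ j ∈ range n, gf τ U (pre π j) j) ≤ 1 := by
  intro n
  induction n with
  | zero =>
    intro _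
    refine (Av_mono (f' := fun _ => 1) fun π _ => ?_).trans (le_of_eq (Av_const U 1))
    rw [range_zero, prod_empty, mul_one]
    unfold iA
    split_ifs <;> norm_num
  | succ n ih =>
    intro hn
    refine le_trans ?_ (ih (by omega))
    apply Av_le_of_split (k := n) (by omega)
    intro W hW π1 h1
    obtain ⟨hW1, hW2⟩ := mem_powersetCard.1 hW
    have hl : π1.length = n := by rw [length_of_mem h1, hW2]
    have hpW : pre π1 n = W := pre_card_of_mem h1 (le_of_eq hW2)
    have hne : (U \ W).Nonempty := by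
      rw [← card_pos, card_sdiff_of_subset hW1]
      omega
    have e1 : ∀ π2 : List α, iA τ (π1 ++ π2) n = iA τ π1 n := fun π2 =>
      iA_append (le_of_eq hl.symm)
    have e2 : ∀ π2 : List α, ∀ j ∈ range n, gf τ U (pre (π1 ++ π2) j) j =
        gf τ U (pre π1 j) j := by
      intro π2 j hj
      rw [mem_range] at hj
      rw [pre_append_le (by omega)]
    have e3 : ∀ π2 : List α, pre (π1 ++ π2) n = W := fun π2 => by
      rw [pre_append_le (le_of_eq hl.symm), hpW]
    have e4 : ∀ π2 : List α, pre (π1 ++ π2) (n + 1) = W ∪ pre π2 1 := by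
      intro π2
      rw [← hl, pre_append_add, (mem_seqs_card.1 h1).2]
    have e5 : ∀ π2 : List α, iA τ (π1 ++ π2) (n + 1) =
        iA τ π1 n * (if τ (W ∪ pre π2 1) = Lab.A then 1 else 0) := by
      intro π2
      rw [← e1 π2, ← e4 π2]
      unfold iA
      rw [if_congr (allA_succ (τ := τ) (π := π1 ++ π2) (i := n)) rfl rfl]
      by_cases hA : allA τ (π1 ++ π2) n
      · by_cases hB : τ (pre (π1 ++ π2) (n + 1)) = Lab.A
        · simp [hA, hB]
        · simp [hA, hB]
      · simp [hA]
    have hL : Av (U \ W) (fun π2 => iA τ (π1 ++ π2) (n + 1) *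
        ∏ j ∈ range (n + 1), gf τ U (pre (π1 ++ π2) j) j) =
        (iA τ π1 n * ∏ j ∈ range n, gf τ U (pre π1 j) j) *
          Av (U \ W) (fun π => gf τ U W W.card *
            (if τ (W ∪ pre π 1) = Lab.A then 1 else 0)) := by
      rw [← Av_mul]
      refine Av_congr fun π2 _ => ?_
      rw [e5, prod_range_succ, prod_congr rfl (e2 π2), e3, hW2]
      ring
    have hR : Av (U \ W) (fun π2 => iA τ (π1 ++ π2) n *
        ∏ j ∈ range n, gf τ U (pre (π1 ++ π2) j) j) =
        iA τ π1 n * ∏ j ∈ range n, gf τ U (pre π1 j) j := by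
      rw [← Av_const (U \ W) (iA τ π1 n * ∏ j ∈ range n, gf τ U (pre π1 j) j)]
      refine Av_congr fun π2 _ => ?_
      rw [e1, prod_congr rfl (e2 π2)]
    rw [hL, hR]
    have hnn : 0 ≤ iA τ π1 n * ∏ j ∈ range n, gf τ U (pre π1 j) j := by
      apply mul_nonneg (iA_nonneg _ _ _)
      apply prod_nonneg
      intro j hj
      rw [mem_range] at hj
      have h2 : pre π1 j ⊆ U := (pre_subset_of_mem h1 j).trans hW1
      have h3 : (pre π1 j).card = j := card_pre_of_mem h1 (by omega)
      have h4 := fin_card_le τ U (pre π1 j)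
      have h5 : ((fin τ U (pre π1 j)).card : ℝ) ≤ (U.card : ℝ) - j := by
        rw [← h3, ← card_sdiff_cast h2, h3]
        exact_mod_cast h4
      unfold gf
      have h6 : (0 : ℝ) ≤ ((fin τ U (pre π1 j)).card : ℝ) := Nat.cast_nonneg _
      apply div_nonneg <;> linarith
    calc _ ≤ (iA τ π1 n * ∏ j ∈ range n, gf τ U (pre π1 j) j) * 1 :=
          mul_le_mul_of_nonneg_left (gstep_le τ hW1 hne) hnn
      _ = _ := mul_one _

/-- positivity on good orders -/
theorem gf_pos {τ : Finset α → Lab} {U : Finset α} {π : List α} (hπ : π ∈ seqs U.card U)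
    {n j : ℕ} (hn : n ≤ U.card) (hA : allA τ π n) (hj : j < n) : 0 < gf τ U (pre π j) j := by
  have h2 : pre π j ⊆ U := pre_subset_of_mem hπ j
  have h3 : (pre π j).card = j := card_pre_of_mem hπ (by omega)
  have h4 : (pre π (j + 1)).card = j + 1 := card_pre_of_mem hπ (by omega)
  have h5 : pre π j ⊆ pre π (j + 1) := pre_mono (Nat.le_succ j)
  have h6 : (pre π (j + 1) \ pre π j).card = 1 := by
    rw [card_sdiff_of_subset h5, h3, h4]
    omega
  obtain ⟨y, hy⟩ := card_eq_one.1 h6
  have hy1 : y ∈ pre π (j + 1) \ pre π j := by rw [hy]; exact mem_singleton_self y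
  have hy2 : insert y (pre π j) = pre π (j + 1) := by
    rw [insert_eq, ← hy, sdiff_union_of_subset h5]
  have hy3 : y ∈ U \ pre π j :=
    mem_sdiff.2 ⟨pre_subset_of_mem hπ _ (mem_sdiff.1 hy1).1, (mem_sdiff.1 hy1).2⟩
  have h7 : y ∈ (U \ pre π j).filter (fun y => τ (insert y (pre π j)) = Lab.A) := by
    rw [mem_filter]
    refine ⟨hy3, ?_⟩
    rw [hy2]
    exact hA (j + 1) (by rw [mem_range]; omega)
  have h8 : (0 : ℝ) < (U.card : ℝ) - (pre π j).card - ((fin τ U (pre π j)).card : ℝ) := by
    rw [← card_stay τ h2]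
    exact_mod_cast card_pos.2 ⟨y, h7⟩
  rw [h3] at h8
  unfold gf
  have h9 : (0 : ℝ) ≤ ((fin τ U (pre π j)).card : ℝ) := Nat.cast_nonneg _
  apply div_pos _ h8
  linarith

/-- (ii) for one set -/
theorem gib_set (τ : Finset α → Lab) (U : Finset α) {n : ℕ} (hn : n ≤ U.card) :
    Av U (fun π => iA τ π n * ∑ j ∈ range n, Real.log (gf τ U (pre π j) j)) ≤
      Av U (fun π => iA τ π n) * (-Real.log (Av U (fun π => iA τ π n))) := by
  set c := Av U (fun π => iA τ π n) with hc
  have hc0 : 0 ≤ c := Av_nonneg fun π _ => iA_nonneg τ π n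
  have h1 : Av U (fun π => iA τ π n * ∑ j ∈ range n, Real.log (gf τ U (pre π j) j)) ≤
      Av U (fun π => c * (iA τ π n * ∏ j ∈ range n, gf τ U (pre π j) j) -
        iA τ π n * (1 + Real.log c)) := by
    apply Av_mono
    intro π hπ
    by_cases hA : allA τ π n
    · rw [iA_pos hA]
      have hg : ∀ j ∈ range n, gf τ U (pre π j) j ≠ 0 := fun j hj =>
        (gf_pos hπ hn hA (mem_range.1 hj)).ne'
      have hp : 0 < ∏ j ∈ range n, gf τ U (pre π j) j :=
        prod_pos fun j hj => gf_pos hπ hn hA (mem_range.1 hj)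
      rw [← Real.log_prod hg]
      have hcp : 0 < c := by
        rw [hc]
        unfold Av
        apply div_pos _ (by exact_mod_cast Nat.factorial_pos _)
        apply sum_pos' (fun π _ => iA_nonneg τ π n)
        exact ⟨π, hπ, by rw [iA_pos hA]; norm_num⟩
      have h2 := Real.log_le_sub_one_of_pos (mul_pos hcp hp)
      rw [Real.log_mul hcp.ne' hp.ne'] at h2
      linarith
    · rw [iA_neg hA]
      simp
  have h2 := gib_prod τ U n hn
  rw [Av_sub, Av_mul, Av_mul_right, ← hc] at h1
  have h3 := mul_le_mul_of_nonneg_left h2 hc0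
  linarith

theorem Av_iA_fw (τ : Finset α → Lab) (U : Finset α) : Av U (fun π => iA τ π U.card) = fw τ U :=
  (fw_eq_Av τ U).symm

theorem Av_iA_fwb (τ : Finset α → Lab) {U : Finset α} (hU : U.Nonempty) :
    Av U (fun π => iA τ π (U.card - 1)) = fwb τ U := (fwb_eq_Av τ hU).symm

/-- (ii), edges, one level -/
theorem gib_E (τ : Finset α → Lab) {V : Finset α} {k : ℕ} (hk : k < V.card) :
    Av V (fun π => iE τ π k * ∑ j ∈ range k, Real.log (((k : ℝ) - j) /
      ((k : ℝ) - j - ((fin τ (pre π k) (pre π j)).card : ℝ)))) ≤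
    Av V (fun π => iE τ π k * (-Real.log (fw τ (pre π k)))) := by
  have e : ∀ (F : Finset α → List α → ℝ), Av V (fun π => iE τ π k * F (pre π k) (π.take k)) =
      ∑ U ∈ powersetCard k V, ∑ x ∈ V \ U, (if isE τ U x then
        Av U (fun π1 => if allA τ π1 k then F U π1 else 0) else 0) /
          ((V.card.choose k : ℝ) * ((V.card : ℝ) - k)) := by
    intro F
    rw [← Av_exE τ hk (fun U _ π1 => F U π1)]
    refine Av_congr fun π hπ => ?_
    have h5 : pre π k ⊆ pre π (k + 1) := pre_mono (Nat.le_succ k)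
    have h6 : (pre π (k + 1) \ pre π k).card = 1 := by
      rw [card_sdiff_of_subset h5, card_pre_of_mem hπ (by omega), card_pre_of_mem hπ (by omega)]
      omega
    rw [sum_const, h6, one_smul]
    unfold iE
    split_ifs <;> simp
  have eL : Av V (fun π => iE τ π k * ∑ j ∈ range k, Real.log (((k : ℝ) - j) /
      ((k : ℝ) - j - ((fin τ (pre π k) (pre π j)).card : ℝ)))) =
      Av V (fun π => iE τ π k * (fun (U : Finset α) (π1 : List α) => ∑ j ∈ range k,
        Real.log (((k : ℝ) - j) / ((k : ℝ) - j - ((fin τ U (pre π1 j)).card : ℝ))))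
          (pre π k) (π.take k)) := by
    refine Av_congr fun π _ => ?_
    congr 1
    refine sum_congr rfl fun j hj => ?_
    rw [mem_range] at hj
    rw [pre_take hj.le]
  rw [eL, e (fun (U : Finset α) (π1 : List α) => ∑ j ∈ range k,
        Real.log (((k : ℝ) - j) / ((k : ℝ) - j - ((fin τ U (pre π1 j)).card : ℝ)))),
    e (fun U _ => -Real.log (fw τ U))]
  refine sum_le_sum fun U hU => sum_le_sum fun x _ => ?_
  obtain ⟨hU1, hU2⟩ := mem_powersetCard.1 hU
  apply div_le_div_of_nonneg_right
  · split_ifs with hE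
    · have h := gib_set τ U (le_refl U.card)
      rw [Av_iA_fw] at h
      have e1 : Av U (fun π1 => if allA τ π1 k then ∑ j ∈ range k,
          Real.log (((k : ℝ) - j) / ((k : ℝ) - j - ((fin τ U (pre π1 j)).card : ℝ))) else 0) =
          Av U (fun π => iA τ π U.card * ∑ j ∈ range U.card, Real.log (gf τ U (pre π j) j)) := by
        refine Av_congr fun π _ => ?_
        rw [hU2]
        unfold iA gf
        rw [hU2]
        split_ifs <;> simp
      have e2 : Av U (fun π1 => if allA τ π1 k then -Real.log (fw τ U) else 0) =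
          fw τ U * (-Real.log (fw τ U)) := by
        rw [← Av_iA_fw τ U, ← Av_mul_right]
        refine Av_congr fun π _ => ?_
        rw [hU2]
        unfold iA
        split_ifs <;> simp
      rw [e1, e2]
      exact h
    · exact le_rfl
  · apply mul_nonneg (Nat.cast_nonneg _)
    have : (k : ℝ) < V.card := by exact_mod_cast hk
    linarith

/-- (ii), vertices, one level -/
theorem gib_X (τ : Finset α → Lab) {V : Finset α} {k : ℕ} (hk : k < V.card) :
    Av V (fun π => iX τ π k * ∑ j ∈ range k, Real.log (((k : ℝ) + 1 - j) /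
      ((k : ℝ) + 1 - j - ((fin τ (pre π (k + 1)) (pre π j)).card : ℝ)))) ≤
    Av V (fun π => iX τ π k * (-Real.log (fwb τ (pre π (k + 1))))) := by
  have e : ∀ (F : Finset α → List α → ℝ),
      Av V (fun π => iX τ π k * F (pre π (k + 1)) (π.take (k + 1))) =
      ∑ U ∈ powersetCard (k + 1) V, (if τ U = Lab.X then
        Av U (fun π1 => if allA τ π1 k then F U π1 else 0) else 0) /
          (V.card.choose (k + 1) : ℝ) := by
    intro F
    rw [← Av_exX τ hk F]
    refine Av_congr fun π _ => ?_
    unfold iX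
    split_ifs <;> simp
  have eL : Av V (fun π => iX τ π k * ∑ j ∈ range k, Real.log (((k : ℝ) + 1 - j) /
      ((k : ℝ) + 1 - j - ((fin τ (pre π (k + 1)) (pre π j)).card : ℝ)))) =
      Av V (fun π => iX τ π k * (fun (U : Finset α) (π1 : List α) => ∑ j ∈ range k,
        Real.log (((k : ℝ) + 1 - j) / ((k : ℝ) + 1 - j - ((fin τ U (pre π1 j)).card : ℝ))))
          (pre π (k + 1)) (π.take (k + 1))) := by
    refine Av_congr fun π _ => ?_
    congr 1
    refine sum_congr rfl fun j hj => ?_
    rw [mem_range] at hj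
    rw [pre_take (by omega)]
  rw [eL, e (fun (U : Finset α) (π1 : List α) => ∑ j ∈ range k,
        Real.log (((k : ℝ) + 1 - j) / ((k : ℝ) + 1 - j - ((fin τ U (pre π1 j)).card : ℝ)))),
    e (fun U _ => -Real.log (fwb τ U))]
  refine sum_le_sum fun U hU => ?_
  obtain ⟨hU1, hU2⟩ := mem_powersetCard.1 hU
  apply div_le_div_of_nonneg_right _ (Nat.cast_nonneg _)
  have hne : U.Nonempty := card_pos.1 (by omega)
  have hk' : U.card - 1 = k := by omega
  have hc : (U.card : ℝ) = (k : ℝ) + 1 := by rw [hU2]; push_cast; ring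
  split_ifs with hE
  · have h := gib_set τ U (n := U.card - 1) (by omega)
    rw [Av_iA_fwb τ hne] at h
    have e1 : Av U (fun π1 => if allA τ π1 k then ∑ j ∈ range k,
        Real.log (((k : ℝ) + 1 - j) / ((k : ℝ) + 1 - j - ((fin τ U (pre π1 j)).card : ℝ)))
          else 0) =
        Av U (fun π => iA τ π (U.card - 1) *
          ∑ j ∈ range (U.card - 1), Real.log (gf τ U (pre π j) j)) := by
      refine Av_congr fun π _ => ?_
      rw [hk']
      unfold iA gf
      rw [hc]
      split_ifs <;> simp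
    have e2 : Av U (fun π1 => if allA τ π1 k then -Real.log (fwb τ U) else 0) =
        fwb τ U * (-Real.log (fwb τ U)) := by
      rw [← Av_iA_fwb τ hne, ← Av_mul_right]
      refine Av_congr fun π _ => ?_
      rw [hk']
      unfold iA
      split_ifs <;> simp
    rw [e1, e2]
    exact h
  · exact le_rfl

/-- (ii), edges -/
theorem gib_E_sum (τ : Finset α → Lab) (V : Finset α) :
    Av V (fun π => ∑ k ∈ range V.card, iE τ π k * ∑ j ∈ range k, Real.log (((k : ℝ) - j) /
      ((k : ℝ) - j - ((fin τ (pre π k) (pre π j)).card : ℝ)))) ≤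
    Av V (fun π => ∑ k ∈ range V.card, iE τ π k * (-Real.log (fw τ (pre π k)))) := by
  rw [Av_sum, Av_sum]
  exact sum_le_sum fun k hk => gib_E τ (mem_range.1 hk)

/-- (ii), vertices -/
theorem gib_X_sum (τ : Finset α → Lab) (V : Finset α) :
    Av V (fun π => ∑ k ∈ range V.card, iX τ π k * ∑ j ∈ range k, Real.log (((k : ℝ) + 1 - j) /
      ((k : ℝ) + 1 - j - ((fin τ (pre π (k + 1)) (pre π j)).card : ℝ)))) ≤
    Av V (fun π => ∑ k ∈ range V.card, iX τ π k * (-Real.log (fwb τ (pre π (k + 1))))) := by
  rw [Av_sum, Av_sum]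
  exact sum_le_sum fun k hk => gib_X τ (mem_range.1 hk)

/-- (i) in explicit form -/
theorem gib_prod' (τ : Finset α → Lab) (U : Finset α) {n : ℕ} (hn : n ≤ U.card) :
    Av U (fun π => iA τ π n * ∏ j ∈ range n, (((U.card : ℝ) - j) /
      ((U.card : ℝ) - j - ((fin τ U (pre π j)).card : ℝ)))) ≤ 1 := gib_prod τ U n hn

end TS

end R5
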