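import Pool.Agent.Work.MP_8b6acb_fs.TSDefs
import Pool.Agent.Work.MP_8b6acb_tk.SideK
import Pool.Agent.Work.MP_8b6acb_ts_helper77.GIB

/-!
# The Gibbs step for the costs (helper25)

The cost after Gibbs (`cstG`, helper88) is at most the true cost (`cstK`, helper32).
-/

namespace R5

namespace TS

open Finset T7

variable {α : Type} [DecidableEq α]

theorem fex_eq (τ : Finset α → Lab) (P U : Finset α) : K.fex τ P U = fin τ P U := rfl

/-- the Gibbs term of an edge stop -/
theorem gb_edge (τ : Finset α → Lab) {V : Finset α} {π : List α} (hπ : π ∈ seqs V.card V)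
    {k j : ℕ} (hk : k ≤ V.card) (hj : j ≤ k) :
    K.gb τ (pre π k) (pre π j) =
      Real.log (((k : ℝ) - j) / ((k : ℝ) - j - ((fin τ (pre π k) (pre π j)).card : ℝ))) := by
  unfold K.gb
  rw [fex_eq, card_sdiff_cast (pre_mono hj), card_pre_of_mem hπ hk,
    card_pre_of_mem hπ (hj.trans hk)]

/-- **the Gibbs step** -/
theorem Av_cstG_le (τ : Finset α → Lab) (ρ : α → ℝ) (V : Finset α) :
    Av V (K.cstG τ ρ V) ≤ Av V (K.cstK τ ρ V) := by
  have hE := gib_E_sum τ V
  have hX := gib_X_sum τ V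
  have e1 : Av V (K.cstG τ ρ V) =
      Av V (fun π => ∑ k ∈ range V.card,
        (iE τ π k * (∑ x ∈ nx π k, (-Real.log (ρ x)) +
            (k : ℝ) * Lf V.card (∑ x ∈ V \ pre π k, ρ x)) +
          iX τ π k * (((k : ℝ) + 1) * Lf V.card (∑ x ∈ V \ pre π (k + 1), ρ x)))) +
      Av V (fun π => ∑ k ∈ range V.card, iE τ π k * ∑ j ∈ range k, Real.log (((k : ℝ) - j) /
        ((k : ℝ) - j - ((fin τ (pre π k) (pre π j)).card : ℝ)))) +
      Av V (fun π => ∑ k ∈ range V.card, iX τ π k * ∑ j ∈ range k, Real.log (((k : ℝ) + 1 - j) /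
        ((k : ℝ) + 1 - j - ((fin τ (pre π (k + 1)) (pre π j)).card : ℝ)))) := by
    rw [← Av_add, ← Av_add]
    refine Av_congr fun π hπ => ?_
    unfold K.cstG
    rw [← sum_add_distrib, ← sum_add_distrib]
    refine sum_congr rfl fun k hk => ?_
    rw [mem_range] at hk
    have h1 : ∑ j ∈ range k, K.gb τ (pre π k) (pre π j) = ∑ j ∈ range k,
        Real.log (((k : ℝ) - j) / ((k : ℝ) - j - ((fin τ (pre π k) (pre π j)).card : ℝ))) := by
      refine sum_congr rfl fun j hj => ?_
      rw [mem_range] at hj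
      exact gb_edge τ hπ hk.le hj.le
    have h2 : ∑ j ∈ range k, K.gb τ (pre π (k + 1)) (pre π j) = ∑ j ∈ range k,
        Real.log (((k : ℝ) + 1 - j) /
          ((k : ℝ) + 1 - j - ((fin τ (pre π (k + 1)) (pre π j)).card : ℝ))) := by
      refine sum_congr rfl fun j hj => ?_
      rw [mem_range] at hj
      rw [gb_edge τ hπ (Nat.succ_le_of_lt hk) (by omega)]
      push_cast
      rfl
    rw [h1, h2]
    ring
  have e2 : Av V (K.cstK τ ρ V) =
      Av V (fun π => ∑ k ∈ range V.card,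
        (iE τ π k * (∑ x ∈ nx π k, (-Real.log (ρ x)) +
            (k : ℝ) * Lf V.card (∑ x ∈ V \ pre π k, ρ x)) +
          iX τ π k * (((k : ℝ) + 1) * Lf V.card (∑ x ∈ V \ pre π (k + 1), ρ x)))) +
      Av V (fun π => ∑ k ∈ range V.card, iE τ π k * (-Real.log (fw τ (pre π k)))) +
      Av V (fun π => ∑ k ∈ range V.card, iX τ π k * (-Real.log (fwb τ (pre π (k + 1))))) := by
    rw [← Av_add, ← Av_add]
    refine Av_congr fun π _ => ?_
    unfold K.cstK
    rw [← sum_add_distrib, ← sum_add_distrib]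
    refine sum_congr rfl fun k _ => ?_
    ring
  rw [e1, e2]
  linarith

end TS

end R5
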