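import Pool.Agent.Work.MP_8b6acb_ts_helper77.HeavyS

/-!
# The functional of a heavy element (helper77)
-/

namespace R5

namespace TS

open Finset T7

variable {α : Type} [DecidableEq α]

/-- the slot `0` -/
noncomputable def c0 (τ : Finset α → Lab) (ρ : α → ℝ) (V : Finset α) (h : α) : ℝ :=
  ρ h / ((V.card : ℝ) - (AL τ V ∅).card)

/-- what an exit at level `k` pays -/
noncomputable def Cx (τ : Finset α → Lab) (ρ : α → ℝ) (V : Finset α) (h : α) (p : List α)
    (k : ℕ) : ℝ :=
  (if k = 0 then 0 else c0 τ ρ V h) + (dc τ h p k : ℝ) * Lf V.card (ρ h)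

/-- the demand at the own exit -/
noncomputable def Dx (τ : Finset α → Lab) (V : Finset α) (h : α) (p : List α) (k : ℕ) : ℝ :=
  lamn V.card * (((V.card : ℝ) - 1 - k) + dc τ h p k) + Lf V.card (AL τ V (pre p k)).card

/-- live view -/
noncomputable def Wx (τ : Finset α → Lab) (ρ : α → ℝ) (V U : Finset α) (h : α) : ℝ :=
  if h ∉ U ∧ U ≠ ∅ ∧ τ (insert h U) = Lab.B then
    el ((V.card : ℝ) - (AL τ V U).card) (ρ h) else 0

/-- the part of the functional of a heavy element that remains at the end -/
noncomputable def HY (τ : Finset α → Lab) (ρ : α → ℝ) (V : Finset α) (h : α) (p : List α) : ℝ :=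
  ∑ k ∈ range p.length,
    (iE τ p k * (if h ∈ pre p k then 0 else if h ∈ nx p k then
        -Real.log (ρ h) + Cx τ ρ V h p k - Dx τ V h p k else Cx τ ρ V h p k) +
      iX τ p k * (if h ∈ pre p (k + 1) then 0 else Cx τ ρ V h p k) +
      iA τ p (k + 1) * Wx τ ρ V (pre p k) h)

/-- the potential -/
noncomputable def Pot (τ : Finset α → Lab) (ρ : α → ℝ) (V : Finset α) (h : α) (p : List α) : ℝ :=
  if h ∈ p.toFinset ∨ p.length = 0 then 0 else
    ((dc τ h p p.length : ℝ) * Lf V.card (ρ h) - ((p.length : ℝ) - 1) * (ρ h / V.card)) /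
      ((V.card : ℝ) - p.length)

theorem HY_snoc {τ : Finset α → Lab} {ρ : α → ℝ} {V : Finset α} {h x : α} {p : List α}
    (hx : x ∉ p) :
    HY τ ρ V h (p ++ [x]) = HY τ ρ V h p + iA τ p p.length *
      ((if τ (insert x p.toFinset) = Lab.B then 1 else 0) *
        (if h ∈ p.toFinset then 0 else if h = x then
          -Real.log (ρ h) + Cx τ ρ V h p p.length - Dx τ V h p p.length
          else Cx τ ρ V h p p.length) +
      (if τ (insert x p.toFinset) = Lab.X then 1 else 0) *
        (if h ∈ insert x p.toFinset then 0 else Cx τ ρ V h p p.length) +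
      (if τ (insert x p.toFinset) = Lab.A then 1 else 0) * Wx τ ρ V p.toFinset h) := by
  unfold HY
  rw [List.length_append, List.length_singleton, sum_range_succ]
  congr 1
  · refine sum_congr rfl fun k hk => ?_
    rw [mem_range] at hk
    unfold Cx Dx
    rw [iE_snoc hk, nx_snoc hk, dc_snoc (by omega), iA_snoc (by omega), iX_snoc hk,
      pre_snoc hk.le, pre_snoc (by omega)]
  · unfold Cx Dx
    rw [iE_snoc_last, nx_snoc_last hx, dc_snoc (by omega), iA_snoc_succ, iX_snoc_last,
      pre_snoc le_rfl, pre_length, pre_snoc_succ]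
    simp only [mem_singleton]
    ring

theorem Pot_snoc {τ : Finset α → Lab} {ρ : α → ℝ} {V : Finset α} {h x : α} {p : List α} :
    Pot τ ρ V h (p ++ [x]) = if h ∈ insert x p.toFinset then 0 else
      ((dc τ h p (p.length + 1) : ℝ) * Lf V.card (ρ h) - (p.length : ℝ) * (ρ h / V.card)) /
        ((V.card : ℝ) - p.length - 1) := by
  unfold Pot
  have e1 : (p ++ [x]).toFinset = insert x p.toFinset := by
    rw [List.toFinset_append, List.toFinset_cons, List.toFinset_nil, union_comm]
    rfl
  rw [e1, List.length_append, List.length_singleton, dc_snoc le_rfl]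
  have e2 : ¬ (p.length + 1 = 0) := by omega
  simp only [e2, or_false]
  split_ifs
  · rfl
  · push_cast
    congr 1 <;> ring

/-- the average of the functional of a heavy element is not negative -/
theorem heavy_Av (τ : Finset α → Lab) (ρ : α → ℝ) (V : Finset α) (h : α) (hV : τ V = Lab.B)
    (hhV : h ∈ V) (hh : τ {h} ≠ Lab.B) (hρ : 0 < ρ h ∧ ρ h ≤ 1) : 0 ≤ Av V (HY τ ρ V h) := by
  set Ψ : List α → ℝ := fun p => HY τ ρ V h p + iA τ p p.length * Pot τ ρ V h p with hΨ
  have hs0 : Ψ [] = 0 := by
    rw [hΨ]
    unfold HY Pot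
    simp
  have hend : Av V Ψ = Av V (HY τ ρ V h) := by
    refine Av_congr fun π hπ => ?_
    rw [hΨ]
    have h1 : iA τ π π.length = 0 := by
      rw [length_of_mem hπ]
      exact iA_top (by rw [hV]; decide) hπ le_rfl
    simp only [h1, zero_mul, add_zero]
  rw [← hend, ← hs0]
  apply step
  intro p hp hpV hl
  have hcardU : p.toFinset.card = p.length := List.toFinset_card_of_nodup hp
  have hcard : (V \ p.toFinset).card + p.length = V.card := by
    have h1 := card_sdiff_add_card_eq_card hpV
    rwa [hcardU] at h1
  have hne : (V \ p.toFinset).Nonempty := card_pos.1 (by omega)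
  have hpos : (0 : ℝ) < ((V \ p.toFinset).card : ℝ) := by exact_mod_cast card_pos.2 hne
  rw [le_div_iff₀ hpos]
  set U := p.toFinset with hU
  set t := p.length with ht
  -- the new terms
  set nw : α → ℝ := fun x =>
      (if τ (insert x U) = Lab.B then 1 else 0) *
        (if h ∈ U then 0 else if h = x then
          -Real.log (ρ h) + Cx τ ρ V h p t - Dx τ V h p t else Cx τ ρ V h p t) +
      (if τ (insert x U) = Lab.X then 1 else 0) *
        (if h ∈ insert x U then 0 else Cx τ ρ V h p t) +
      (if τ (insert x U) = Lab.A then 1 else 0) * (Wx τ ρ V U h +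
        (if h ∈ insert x U then 0 else
          ((dc τ h p (t + 1) : ℝ) * Lf V.card (ρ h) - (t : ℝ) * (ρ h / V.card)) /
            ((V.card : ℝ) - t - 1))) with hnw
  have e1 : ∀ x ∈ V \ U, Ψ (p ++ [x]) = HY τ ρ V h p + iA τ p t * nw x := by
    intro x hx
    have hx' : x ∉ p := fun h => (mem_sdiff.1 hx).2 (List.mem_toFinset.2 h)
    rw [hΨ, hnw]
    simp only []
    rw [HY_snoc hx', Pot_snoc, List.length_append, List.length_singleton, iA_snoc_succ]
    ring
  rw [sum_congr rfl e1, sum_add_distrib, sum_const, nsmul_eq_mul, ← mul_sum]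
  have hA := iA_nonneg τ p t
  suffices hsuf : Pot τ ρ V h p * ((V \ U).card : ℝ) ≤ ∑ x ∈ V \ U, nw x by
    have h1 := mul_le_mul_of_nonneg_left hsuf hA
    have h2 : Ψ p = HY τ ρ V h p + iA τ p t * Pot τ ρ V h p := rfl
    rw [h2]
    nlinarith
  by_cases hhU : h ∈ U
  · -- `h` is gone
    have h1 : Pot τ ρ V h p = 0 := by
      unfold Pot
      rw [if_pos (Or.inl hhU)]
    rw [h1, zero_mul]
    apply sum_nonneg
    intro x _
    rw [hnw]
    simp only []
    have h2 : Wx τ ρ V U h = 0 := by
      unfold Wx
      rw [if_neg (fun h3 => h3.1 hhU)]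
    rw [if_pos hhU, if_pos (mem_insert_of_mem hhU), if_pos (mem_insert_of_mem hhU), h2]
    simp
  · have hhm : h ∈ V \ U := mem_sdiff.2 ⟨hhV, hhU⟩
    have hins : ∀ x ∈ (V \ U).erase h, h ∉ insert x U := by
      intro x hx h1
      rcases mem_insert.1 h1 with h2 | h2
      · exact (mem_erase.1 hx).1 h2.symm
      · exact hhU h2
    have hcE : ((V \ U).erase h).card + 1 + t = V.card := by
      rw [card_erase_of_mem hhm]
      have := card_pos.2 hne
      omega
    set n := ((V \ U).erase h).card with hn
    set N := (((V \ U).erase h).filter (fun x => τ (insert x U) ≠ Lab.A)).card with hN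
    have hNn : N ≤ n := card_filter_le _ _
    set C := Cx τ ρ V h p t with hC
    set P := ((dc τ h p (t + 1) : ℝ) * Lf V.card (ρ h) - (t : ℝ) * (ρ h / V.card)) /
            ((V.card : ℝ) - t - 1) with hP
    -- the others
    have e2 : ∑ x ∈ (V \ U).erase h, nw x = (N : ℝ) * C + ((n : ℝ) - N) * (Wx τ ρ V U h + P) := by
      have h1 : ∀ x ∈ (V \ U).erase h, nw x =
          if τ (insert x U) ≠ Lab.A then C else Wx τ ρ V U h + P := by
        intro x hx
        have hhx : ¬ h = x := fun h2 => (mem_erase.1 hx).1 h2.symm
        rw [hnw]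
        simp only []
        rw [if_neg hhU, if_neg hhx, if_neg (hins x hx), if_neg (hins x hx)]
        rcases hl : τ (insert x U) with _ | _ | _ <;> simp
      rw [sum_congr rfl h1, sum_ite, sum_const, sum_const, nsmul_eq_mul, nsmul_eq_mul]
      have h2 := card_filter_add_card_filter_not (s := (V \ U).erase h)
        (fun x => τ (insert x U) ≠ Lab.A)
      have h3 : ((((V \ U).erase h).filter (fun x => ¬ τ (insert x U) ≠ Lab.A)).card : ℝ) =
          (n : ℝ) - N := by
        have : (N : ℝ) + ((((V \ U).erase h).filter
          (fun x => ¬ τ (insert x U) ≠ Lab.A)).card : ℝ) = n := by exact_mod_cast h2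
        linarith
      rw [h3]
    rw [← add_sum_erase _ _ hhm, e2]
    -- the own term
    have hm0 : (0 : ℝ) < V.card := by exact_mod_cast (by omega : 0 < V.card)
    have haA : (AL τ V U).card ≤ N := by
      apply card_le_card
      intro z hz
      have hz' := mem_AL.1 hz
      refine mem_filter.2 ⟨mem_erase.2 ⟨?_, mem_sdiff.2 hz'.1⟩, by rw [hz'.2.2]; decide⟩
      rintro rfl
      exact hh hz'.2.1
    have ha0 : (AL τ V U).card ≤ (AL τ V ∅).card := by
      apply card_le_card
      intro z hz
      have hz' := mem_AL.1 hz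
      exact mem_AL.2 ⟨⟨hz'.1.1, notMem_empty _⟩, hz'.2.1, by
        have : insert z (∅ : Finset α) = {z} := rfl
        rw [this]; exact hz'.2.1⟩
    have ha0m : (AL τ V ∅).card + 1 ≤ V.card := by
      have h1 : AL τ V ∅ ⊆ V.erase h := by
        intro z hz
        have hz' := mem_AL.1 hz
        refine mem_erase.2 ⟨?_, hz'.1.1⟩
        rintro rfl
        exact hh hz'.2.1
      have h2 := card_le_card h1
      rw [card_erase_of_mem hhV] at h2
      have := card_pos.2 ⟨h, hhV⟩
      omega
    have ha0r : (0 : ℝ) < (V.card : ℝ) - (AL τ V ∅).card := by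
      have : ((AL τ V ∅).card : ℝ) + 1 ≤ V.card := by exact_mod_cast ha0m
      linarith
    have hc0 : 0 ≤ c0 τ ρ V h := div_nonneg hρ.1.le ha0r.le
    have hc0a : ρ h / ((V.card : ℝ) - (AL τ V U).card) ≤ c0 τ ρ V h := by
      unfold c0
      apply div_le_div_of_nonneg_left hρ.1.le ha0r
      have : ((AL τ V U).card : ℝ) ≤ (AL τ V ∅).card := by exact_mod_cast ha0
      linarith
    have hc0m : ρ h / (V.card : ℝ) ≤ c0 τ ρ V h := by
      unfold c0
      apply div_le_div_of_nonneg_left hρ.1.le ha0r
      have : (0 : ℝ) ≤ (AL τ V ∅).card := Nat.cast_nonneg _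
      linarith
    have hcr : ((V \ U).card : ℝ) = (V.card : ℝ) - t := by
      have : ((V \ U).card : ℝ) + t = V.card := by exact_mod_cast hcard
      linarith
    rcases Nat.eq_zero_or_pos t with ht0 | ht0
    · -- level 0
      have hU0 : U = ∅ := by
        rw [← card_eq_zero, hcardU, ht0]
      have h1 : Pot τ ρ V h p = 0 := by
        unfold Pot
        rw [if_pos (Or.inr ht0)]
      have h2 : C = 0 := by
        rw [hC]
        unfold Cx
        rw [if_pos ht0, ht0, dc_zero]
        simp
      have h3 : Wx τ ρ V U h = 0 := by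
        unfold Wx
        rw [if_neg (fun h4 => h4.2.1 hU0)]
      have h4 : P = 0 := by
        rw [hP, ht0, zero_add, dc_one]
        simp
      have h5 : nw h = 0 := by
        rw [hnw]
        simp only []
        have h6 : ¬ τ (insert h U) = Lab.B := by
          rw [hU0]
          exact hh
        rw [if_neg h6, if_pos (mem_insert_self _ _), if_pos (mem_insert_self _ _), h3]
        simp
      rw [h1, h2, h3, h4, h5]
      simp
    · have hPot : Pot τ ρ V h p * ((V \ U).card : ℝ) =
          (dc τ h p t : ℝ) * Lf V.card (ρ h) - ((t : ℝ) - 1) * (ρ h / V.card) := by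
        unfold Pot
        rw [if_neg (by push Not; exact ⟨hhU, by omega⟩), hcr]
        rw [hcr] at hpos
        exact div_mul_cancel₀ _ hpos.ne'
      rw [hPot]
      have hdt : dc τ h p t + 1 ≤ t := by
        have := dc_le τ h p t
        omega
      have hCe : C = c0 τ ρ V h + (dc τ h p t : ℝ) * Lf V.card (ρ h) := by
        rw [hC]
        unfold Cx
        rw [if_neg (by omega)]
      have hUne : U ≠ ∅ := by
        intro h1
        rw [← card_eq_zero, hcardU] at h1
        omega
      have hnr : (V.card : ℝ) - t - 1 = n := by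
        have : (n : ℝ) + 1 + t = V.card := by exact_mod_cast hcE
        linarith
      have hpt : pre p t = U := pre_length p
      by_cases hB : τ (insert h U) = Lab.B
      · -- edge exit of `h`
        have h5 : nw h = -Real.log (ρ h) + C - Dx τ V h p t := by
          rw [hnw]
          simp only []
          rw [if_pos hB, if_neg hhU, hB]
          simp
        have h6 : Wx τ ρ V U h = el ((V.card : ℝ) - (AL τ V U).card) (ρ h) := by
          unfold Wx
          rw [if_pos ⟨hhU, hUne, hB⟩]
        have h7 : dc τ h p (t + 1) = dc τ h p t := by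
          rw [dc_succ τ h p ht0, hpt, if_neg (by rw [hB]; simp)]
          rfl
        have h8 : Dx τ V h p t = lamn V.card * (((V.card : ℝ) - 1 - t) + dc τ h p t) +
            Lf V.card (AL τ V U).card := by
          unfold Dx
          rw [hpt]
        rw [h5, h6, hP, h7, h8, hCe, hnr]
        rcases Nat.eq_zero_or_pos n with hn0 | hn0
        · -- last level
          have hN0 : N = 0 := by omega
          have ha : (AL τ V U).card = 0 := by omega
          rw [hn0, hN0, ha]
          have h9 : (V.card : ℝ) - 1 - t = 0 := by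
            have : (n : ℝ) = 0 := by rw [hn0]; simp
            linarith
          have h10 : (t : ℝ) - 1 = (V.card : ℝ) - 2 := by linarith
          have h11 := heavy_L (m := V.card) (d := dc τ h p t) hρ.1 hρ.2 (by omega) (by omega) hc0m
          have h12 : Lf V.card ((0 : ℕ) : ℝ) = 0 := by unfold Lf; simp
          rw [h9, h10, h12]
          simp only [Nat.cast_zero, zero_mul, sub_self, add_zero, zero_add]
          linarith
        · have h11 := heavy_B (m := V.card) (n := n) (N := N) (a := (AL τ V U).card)
            (d := dc τ h p t) (t := t) hρ.1 hρ.2 hn0 (by omega) ht0 haA hNn hdt hc0a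
          linarith
      · -- no edge exit of `h`
        have h5 : 0 ≤ nw h := by
          rw [hnw]
          simp only []
          have h6 : Wx τ ρ V U h = 0 := by
            unfold Wx
            rw [if_neg (fun h7 => hB h7.2.2)]
          rw [if_neg hB, if_pos (mem_insert_self _ _), if_pos (mem_insert_self _ _), h6]
          simp
        have h6 : Wx τ ρ V U h = 0 := by
          unfold Wx
          rw [if_neg (fun h7 => hB h7.2.2)]
        have h7 : dc τ h p (t + 1) = dc τ h p t + 1 := by
          rw [dc_succ τ h p ht0, hpt, if_pos hB]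
        have hn0 : 1 ≤ n := by
          by_contra hn0
          have hn00 : (V \ U).erase h = ∅ := card_eq_zero.1 (by omega)
          apply hB
          have : insert h U = V := by
            ext z
            rw [mem_insert]
            constructor
            · rintro (h8 | h8)
              · rw [h8]; exact hhV
              · exact hpV h8
            · intro h8
              by_cases hz : z ∈ U
              · exact Or.inr hz
              · left
                by_contra hzh
                have : z ∈ (V \ U).erase h := mem_erase.2 ⟨hzh, mem_sdiff.2 ⟨h8, hz⟩⟩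
                rw [hn00] at this
                exact notMem_empty _ this
          rw [this, hV]
        have h8 := heavy_D (n := n) (N := N) (d := dc τ h p t) (t := t) (c := c0 τ ρ V h)
          (κ := Lf V.card (ρ h)) (w := ρ h / V.card) hn0 hNn hc0
          (div_nonneg hρ.1.le hm0.le) (div_le_el hm0 (by
            have h9 : (2 : ℝ) ≤ V.card := by exact_mod_cast (by omega : 2 ≤ V.card)
            linarith [hρ.2])) ht0
        rw [h6, hP, h7, hCe, hnr, zero_add]
        have h9 : ((n : ℝ) - N) * ((((dc τ h p t + 1 : ℕ) : ℝ) * Lf V.card (ρ h) -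
            t * (ρ h / V.card)) / n) = ((n : ℝ) - N) * (((dc τ h p t + 1 : ℕ) : ℝ) *
            Lf V.card (ρ h) - t * (ρ h / V.card)) / n := by ring
        rw [h9]
        linarith

end TS

end R5
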