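import Pool.Agent.Work.MP_8b6acb_ts_helper77.Light
import Pool.Agent.Work.MP_8b6acb_ti.SetIneq2

/-!
# Scalar steps of the functional of a heavy element (helper77)
-/

namespace R5

namespace TS

open Finset T7

/-- a level where `h` has no edge exit -/
theorem heavy_D {n N d t : ℕ} {c κ w : ℝ} (hn : 1 ≤ n) (hN : N ≤ n) (hc : 0 ≤ c)
    (hw : 0 ≤ w) (hκ : w ≤ κ) (ht : 1 ≤ t) :
    (d : ℝ) * κ - ((t : ℝ) - 1) * w ≤ (N : ℝ) * (c + d * κ) +
      ((n : ℝ) - N) * (((d + 1 : ℕ) : ℝ) * κ - t * w) / n := by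
  have hn1 : (1 : ℝ) ≤ n := by exact_mod_cast hn
  have hN1 : (N : ℝ) ≤ n := by exact_mod_cast hN
  have hN0 : (0 : ℝ) ≤ N := Nat.cast_nonneg _
  have hd0 : (0 : ℝ) ≤ d := Nat.cast_nonneg _
  have ht1 : (1 : ℝ) ≤ t := by exact_mod_cast ht
  have hκ0 : 0 ≤ κ := hw.trans hκ
  have hdκ : 0 ≤ (d : ℝ) * κ := mul_nonneg hd0 hκ0
  set T := (d : ℝ) * κ - ((t : ℝ) - 1) * w with hT
  have h1 : T ≤ ((d + 1 : ℕ) : ℝ) * κ - t * w := by
    push_cast
    nlinarith
  have h2 : T ≤ n * (c + d * κ) := by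
    have h3 : 0 ≤ ((t : ℝ) - 1) * w := mul_nonneg (by linarith) hw
    have h4 : 0 ≤ (n - 1) * (d * κ) + n * c :=
      add_nonneg (mul_nonneg (by linarith) hdκ) (mul_nonneg (by linarith) hc)
    nlinarith
  have h3 : T = (N : ℝ) / n * T + ((n : ℝ) - N) / n * T := by
    field_simp
    ring
  rw [h3]
  have h4 : (N : ℝ) / n * T ≤ (N : ℝ) * (c + d * κ) := by
    calc (N : ℝ) / n * T ≤ (N : ℝ) / n * (n * (c + d * κ)) :=
          mul_le_mul_of_nonneg_left h2 (div_nonneg hN0 (by linarith))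
      _ = _ := by field_simp
  have h5 : ((n : ℝ) - N) / n * T ≤ ((n : ℝ) - N) * (((d + 1 : ℕ) : ℝ) * κ - t * w) / n := by
    rw [div_mul_eq_mul_div]
    exact div_le_div_of_nonneg_right (mul_le_mul_of_nonneg_left h1 (by linarith)) (by linarith)
  linarith

/-- a level where `h` has an edge exit, other elements are left -/
theorem heavy_B {m n N a d t : ℕ} {c r : ℝ} (h0 : 0 < r) (h1 : r ≤ 1) (hn : 1 ≤ n)
    (hm : m = n + t + 1) (ht : 1 ≤ t) (haN : a ≤ N) (hN : N ≤ n) (hd : d + 1 ≤ t)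
    (hc : r / ((m : ℝ) - a) ≤ c) :
    (d : ℝ) * Lf m r - ((t : ℝ) - 1) * (r / m) ≤
      (-Real.log r + (c + d * Lf m r) - lamn m * (((m : ℝ) - 1 - t) + d) - Lf m a) +
      (N : ℝ) * (c + d * Lf m r) +
      ((n : ℝ) - N) * (el ((m : ℝ) - a) r + (d * Lf m r - t * (r / m)) / n) := by
  have hn1 : (1 : ℝ) ≤ n := by exact_mod_cast hn
  have hn0 : (0 : ℝ) < n := by linarith
  have haN' : (a : ℝ) ≤ N := by exact_mod_cast haN
  have hN1 : (N : ℝ) ≤ n := by exact_mod_cast hN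
  have ha0 : (0 : ℝ) ≤ a := Nat.cast_nonneg _
  have hmr : (m : ℝ) = n + t + 1 := by exact_mod_cast hm
  have e1 : (m : ℝ) - 1 - t = n := by rw [hmr]; ring
  have e2 : (m : ℝ) - t = 1 + n := by rw [hmr]; ring
  have i1 := SI.IS1 m t a d ht (by omega) (by omega) hd h0 h1
  have i2 := SI.IS2 m t a d ht (by omega) (by omega) hd h0 h1
  rw [e1, e2] at i1
  rw [e1] at i2
  have e3 : -Real.log (1 - r / ((m : ℝ) - a)) = el ((m : ℝ) - a) r := rfl
  rw [e3] at i2
  rw [e1]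
  set κ := Lf m r with hκ
  set g := el ((m : ℝ) - a) r with hg
  set w := r / (m : ℝ) with hw
  set b := r / ((m : ℝ) - a) with hb
  set q := -Real.log r with hq
  set lm := lamn m with hlm
  -- the affine function of `N`
  have hcN : (1 + (N : ℝ)) * b ≤ (1 + (N : ℝ)) * c :=
    mul_le_mul_of_nonneg_left hc (by linarith)
  have key : 0 ≤ q - Lf m a - lm * (n + d) + (1 + (N : ℝ)) * b + N * (d * κ) +
      ((n : ℝ) - N) * g + ((n : ℝ) - N) / n * (d * κ - t * w) + ((t : ℝ) - 1) * w := by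
    rcases eq_or_lt_of_le (haN'.trans hN1) with han | han
    · -- `a = n`
      have hNn : (N : ℝ) = n := le_antisymm hN1 (han ▸ haN')
      rw [hNn]
      have : q - Lf m a - lm * (n + d) + (1 + (n : ℝ)) * b + n * (d * κ) +
          ((n : ℝ) - n) * g + ((n : ℝ) - n) / n * (d * κ - t * w) + ((t : ℝ) - 1) * w =
          q - Lf m a - lm * n + (1 + (n : ℝ)) * b + ((t : ℝ) - 1) * w +
          d * (n * κ - lm) := by ring
      rw [this]
      exact i1
    · have hna : (0 : ℝ) < (n : ℝ) - a := by linarith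
      have hlin : ((n : ℝ) - a) * (q - Lf m a - lm * (n + d) + (1 + (N : ℝ)) * b + N * (d * κ) +
          ((n : ℝ) - N) * g + ((n : ℝ) - N) / n * (d * κ - t * w) + ((t : ℝ) - 1) * w) =
          ((n : ℝ) - N) * (q - Lf m a - lm * n + (1 + (a : ℝ)) * b + ((n : ℝ) - a) * g -
            ((n : ℝ) - a) / n * (t * w) + ((t : ℝ) - 1) * w +
            d * (κ * (a + ((n : ℝ) - a) / n) - lm)) +
          ((N : ℝ) - a) * (q - Lf m a - lm * n + (1 + (n : ℝ)) * b + ((t : ℝ) - 1) * w +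
            d * (n * κ - lm)) := by
        field_simp
        ring
      have h3 := mul_nonneg (by linarith : (0 : ℝ) ≤ (n : ℝ) - N) i2
      have h4 := mul_nonneg (by linarith : (0 : ℝ) ≤ (N : ℝ) - a) i1
      by_contra hneg
      push Not at hneg
      have h5 := mul_neg_of_pos_of_neg hna hneg
      linarith
  have e4 : ((n : ℝ) - N) * (g + (d * κ - t * w) / n) =
      ((n : ℝ) - N) * g + ((n : ℝ) - N) / n * (d * κ - t * w) := by
    field_simp
  rw [e4]
  nlinarith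

/-- the last level -/
theorem heavy_L {m d : ℕ} {c r : ℝ} (h0 : 0 < r) (h1 : r ≤ 1) (hm : 2 ≤ m) (hd : d + 2 ≤ m)
    (hc : r / (m : ℝ) ≤ c) :
    (d : ℝ) * Lf m r - ((m : ℝ) - 2) * (r / m) ≤
      -Real.log r + (c + d * Lf m r) - lamn m * d := by
  have hmr : (2 : ℝ) ≤ m := by exact_mod_cast hm
  have hdr : (d : ℝ) + 2 ≤ m := by exact_mod_cast hd
  have hd0 : (0 : ℝ) ≤ d := Nat.cast_nonneg _
  have hq := one_sub_le h0
  have hlam : lamn m ≤ 1 / ((m : ℝ) - 1) := by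
    have h2 := lam_sub_le hm (r := 0) (by linarith)
    have h3 : Lf m 0 = 0 := by unfold Lf; simp
    rw [h3, sub_zero, sub_zero] at h2
    exact h2
  have hlam0 : 0 ≤ lamn m := (lamn_pos hm).le
  have h2 : lamn m * d ≤ 1 / ((m : ℝ) - 1) * ((m : ℝ) - 2) := by
    calc lamn m * d ≤ 1 / ((m : ℝ) - 1) * d := mul_le_mul_of_nonneg_right hlam hd0
      _ ≤ _ := mul_le_mul_of_nonneg_left (by linarith) (div_nonneg zero_le_one (by linarith))
  have h3 : 1 / ((m : ℝ) - 1) * ((m : ℝ) - 2) ≤ 1 - 1 / m := by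
    have h4 : (0 : ℝ) < (m : ℝ) - 1 := by linarith
    have h5 : (0 : ℝ) < m := by linarith
    rw [div_mul_eq_mul_div, one_mul, div_le_iff₀ h4]
    have h6 : (1 - 1 / (m : ℝ)) * ((m : ℝ) - 1) = (m : ℝ) - 2 + 1 / m := by
      field_simp
      ring
    rw [h6]
    have : (0 : ℝ) ≤ 1 / m := by positivity
    linarith
  have h4 : r / (m : ℝ) ≤ 1 / m := div_le_div_of_nonneg_right h1 (by linarith)
  have h5 : ((m : ℝ) - 2) * (r / m) + r / m = r - r / m := by
    have h6 : (m : ℝ) ≠ 0 := by linarith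
    field_simp
    ring
  linarith

end TS

end R5
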