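import Pool.Agent.Work.MP_8b6acb_ts_helper77.Heavy
import Pool.Agent.Work.MP_8b6acb_ts_helper77.GIB

/-!
# One slot of the set kernel (helper77)
-/

namespace R5

namespace TS

open Finset T7

variable {α : Type} [DecidableEq α]

/-- the visible elements which are no live lights -/
def SV (τ : Finset α → Lab) (V O W : Finset α) : Finset α := ((V \ O) ∪ fin τ O W) \ AL τ V W

/-- what is seen of `y` -/
noncomputable def vs (τ : Finset α → Lab) (ρ : α → ℝ) (V W : Finset α) (y : α) : ℝ :=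
  if W = ∅ then ρ y / ((V.card : ℝ) - (AL τ V W).card)
  else el ((V.card : ℝ) - (AL τ V W).card) (ρ y)

theorem AL_sub_vis {τ : Finset α → Lab} {V O W : Finset α} :
    AL τ V W ⊆ (V \ O) ∪ fin τ O W := by
  intro z hz
  have hz' := mem_AL.1 hz
  by_cases hO : z ∈ O
  · apply mem_union_right
    unfold fin
    rw [mem_filter, mem_sdiff]
    exact ⟨⟨hO, hz'.1.2⟩, by rw [hz'.2.2]; decide⟩
  · exact mem_union_left _ (mem_sdiff.2 ⟨hz'.1.1, hO⟩)

theorem sum_pnl (τ : Finset α → Lab) (ρ : α → ℝ) (V W : Finset α) :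
    ∑ y ∈ V, pnl τ ρ V W y = ∑ y ∈ AL τ V W, (1 - ρ y) /
      (if W = ∅ then (V.card : ℝ) - (AL τ V W).card
        else (V.card : ℝ) - (AL τ V W).card - 1) := by
  unfold pnl
  rw [← sum_filter]
  refine sum_congr ?_ fun _ _ => rfl
  ext z
  rw [mem_filter]
  exact ⟨fun h => h.2, fun h => ⟨(mem_AL.1 h).1.1, h⟩⟩

/-- the tangent step for a visible set `S ∪ AL` -/
theorem slot_tan (τ : Finset α → Lab) (ρ : α → ℝ) {V W S : Finset α} {s : ℝ}
    (hρ : ∀ x ∈ V, 0 < ρ x ∧ ρ x ≤ 1) (hS : S ⊆ V)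
    (ha : (AL τ V W).card + 1 ≤ V.card) (ha2 : W ≠ ∅ → (AL τ V W).card + 2 ≤ V.card)
    (hs : ∑ y ∈ S, ρ y + ∑ y ∈ AL τ V W, ρ y ≤ s) (hsm : s < V.card) :
    Lf V.card (AL τ V W).card + ∑ y ∈ S, vs τ ρ V W y - ∑ y ∈ V, pnl τ ρ V W y ≤
      Lf V.card s := by
  set a := (AL τ V W).card with hadef
  have har : (a : ℝ) + 1 ≤ V.card := by exact_mod_cast ha
  have hm0 : (0 : ℝ) < V.card := by have : (0 : ℝ) ≤ a := Nat.cast_nonneg _; linarith
  set X := ∑ y ∈ S, ρ y with hX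
  set δ := ∑ y ∈ AL τ V W, (1 - ρ y) with hδ
  have e1 : ∑ y ∈ AL τ V W, ρ y = a - δ := by
    rw [hδ, sum_sub_distrib, sum_const, nsmul_eq_mul, mul_one]
    ring
  rw [e1] at hs
  have h1 : (a : ℝ) + (X - δ) ≤ s := by linarith
  have h2 : Lf V.card ((a : ℝ) + (X - δ)) ≤ Lf V.card s := Lf_mono h1 hsm hm0
  have h3 := Lf_split (m := V.card) (a := (a : ℝ)) (s := (a : ℝ) + (X - δ)) (by linarith)
    (by linarith) hm0
  have h4 : (a : ℝ) + (X - δ) - a = X - δ := by ring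
  rw [h4] at h3
  rw [sum_pnl, ← hadef]
  by_cases hW : W = ∅
  · simp only [if_pos hW]
    have h5 := slot_zero (M := (V.card : ℝ) - a) (by linarith) (A := AL τ V W) (S := S) (r := ρ)
      (by rw [← hX, ← hδ]; linarith)
    rw [← hX, ← hδ] at h5
    have h6 : ∑ y ∈ S, vs τ ρ V W y = ∑ y ∈ S, ρ y / ((V.card : ℝ) - a) := by
      refine sum_congr rfl fun y _ => ?_
      unfold vs
      rw [if_pos hW]
    rw [h6]
    linarith
  · simp only [if_neg hW]
    have ha2r : (a : ℝ) + 2 ≤ V.card := by exact_mod_cast ha2 hW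
    have h5 := slot_one (M := (V.card : ℝ) - a) (by linarith) (A := AL τ V W) (S := S) (r := ρ)
      (fun y hy => (hρ y (mem_AL.1 hy).1.1).2)
      (fun y hy => ⟨(hρ y (hS hy)).1.le, (hρ y (hS hy)).2⟩)
      (by rw [← hX, ← hδ]; linarith)
    rw [← hX, ← hδ] at h5
    have h6 : ∑ y ∈ S, vs τ ρ V W y = ∑ y ∈ S, el ((V.card : ℝ) - a) (ρ y) := by
      refine sum_congr rfl fun y _ => ?_
      unfold vs
      rw [if_neg hW]
    rw [h6]
    linarith

/-- **a slot below the object** -/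
theorem levF (τ : Finset α → Lab) (ρ : α → ℝ) {V O W : Finset α}
    (hρ : ∀ x ∈ V, 0 < ρ x ∧ ρ x ≤ 1) (hO : O ⊆ V) (hW : W ⊆ O)
    (hF : (fin τ O W).card + W.card < O.card) :
    Lf V.card (AL τ V W).card + ∑ y ∈ SV τ V O W, vs τ ρ V W y - ∑ y ∈ V, pnl τ ρ V W y ≤
      Lf V.card (∑ x ∈ V \ O, ρ x) + Real.log (((O.card : ℝ) - W.card) /
        ((O.card : ℝ) - W.card - ((fin τ O W).card : ℝ))) := by
  have hFO : fin τ O W ⊆ O := (filter_subset _ _).trans sdiff_subset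
  have hdis : Disjoint (V \ O) (fin τ O W) :=
    disjoint_of_subset_right hFO sdiff_disjoint
  have hcVO : (V \ O).card + O.card = V.card := card_sdiff_add_card_eq_card hO
  have hcVOr : ((V \ O).card : ℝ) + O.card = V.card := by exact_mod_cast hcVO
  have hFr : ((fin τ O W).card : ℝ) + W.card < O.card := by exact_mod_cast hF
  have hF0 : (0 : ℝ) ≤ (fin τ O W).card := Nat.cast_nonneg _
  have hW0 : (0 : ℝ) ≤ W.card := Nat.cast_nonneg _
  have hO0 : (0 : ℝ) ≤ (V \ O).card := Nat.cast_nonneg _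
  have hmass : ∑ x ∈ V \ O, ρ x ≤ ((V \ O).card : ℝ) := by
    have := sum_le_sum (fun x hx => (hρ x (mem_sdiff.1 hx).1).2 : ∀ x ∈ V \ O, ρ x ≤ 1)
    rwa [sum_const, nsmul_eq_mul, mul_one] at this
  have hmass0 : 0 ≤ ∑ x ∈ V \ O, ρ x :=
    sum_nonneg fun x hx => (hρ x (mem_sdiff.1 hx).1).1.le
  have hFm : ∑ x ∈ fin τ O W, ρ x ≤ ((fin τ O W).card : ℝ) := by
    have := sum_le_sum (fun x hx => (hρ x (hO (hFO hx))).2 : ∀ x ∈ fin τ O W, ρ x ≤ 1)
    rwa [sum_const, nsmul_eq_mul, mul_one] at this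
  have hm0 : (0 : ℝ) < V.card := by linarith
  have hg := slot_gibbs (m := V.card) (s := ∑ x ∈ V \ O, ρ x) (κ := (O.card : ℝ) - W.card)
    (f := (fin τ O W).card) hm0 hmass0 (by linarith) hF0 (by linarith) (by linarith)
  refine le_trans ?_ hg
  -- cardinality of the live lights
  have hAcard : (AL τ V W).card + W.card + 1 ≤ V.card := by
    have h1 : (AL τ V W).card ≤ ((V \ O) ∪ fin τ O W).card := card_le_card AL_sub_vis
    rw [card_union_of_disjoint hdis] at h1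
    omega
  apply slot_tan τ ρ hρ _ (by omega) _ _ _
  · unfold SV
    intro z hz
    rcases mem_union.1 (mem_sdiff.1 hz).1 with h1 | h1
    · exact (mem_sdiff.1 h1).1
    · exact hO (hFO h1)
  · intro hWne
    have := card_pos.2 (nonempty_iff_ne_empty.2 hWne)
    omega
  · have h1 : ∑ y ∈ SV τ V O W, ρ y + ∑ y ∈ AL τ V W, ρ y =
        ∑ y ∈ (V \ O) ∪ fin τ O W, ρ y := by
      unfold SV
      exact sum_sdiff AL_sub_vis
    rw [h1, sum_union hdis]
    linarith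
  · linarith

/-- **the last slot of a vertex** -/
theorem levX (τ : Finset α → Lab) (ρ : α → ℝ) {V O W : Finset α}
    (hρ : ∀ x ∈ V, 0 < ρ x ∧ ρ x ≤ 1) (hO : O ⊆ V) (hW : W.card + 1 = O.card)
    (hA : AL τ V W ⊆ V \ O) :
    Lf V.card (AL τ V W).card - ∑ y ∈ V, pnl τ ρ V W y ≤ Lf V.card (∑ x ∈ V \ O, ρ x) := by
  have hcVO : (V \ O).card + O.card = V.card := card_sdiff_add_card_eq_card hO
  have hcVOr : ((V \ O).card : ℝ) + O.card = V.card := by exact_mod_cast hcVO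
  have hAc := card_le_card hA
  have hmass : ∑ x ∈ V \ O, ρ x ≤ ((V \ O).card : ℝ) := by
    have := sum_le_sum (fun x hx => (hρ x (mem_sdiff.1 hx).1).2 : ∀ x ∈ V \ O, ρ x ≤ 1)
    rwa [sum_const, nsmul_eq_mul, mul_one] at this
  have hO1 : (1 : ℝ) ≤ O.card := by exact_mod_cast (by omega : 1 ≤ O.card)
  have h1 := slot_tan τ ρ (V := V) (W := W) (S := ∅) (s := ∑ x ∈ V \ O, ρ x) hρ
    (empty_subset _) (by omega) (by
      intro hWne
      have := card_pos.2 (nonempty_iff_ne_empty.2 hWne)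
      omega) (by
      rw [sum_empty, zero_add]
      exact sum_le_sum_of_subset_of_nonneg hA fun x hx _ => (hρ x (mem_sdiff.1 hx).1).1.le)
    (by linarith)
  rw [sum_empty, add_zero] at h1
  exact h1

theorem vs_nonneg {τ : Finset α → Lab} {ρ : α → ℝ} {V W : Finset α} {y : α}
    (hρ : 0 < ρ y ∧ ρ y ≤ 1) (ha : (AL τ V W).card + 1 ≤ V.card)
    (ha2 : W ≠ ∅ → (AL τ V W).card + 2 ≤ V.card) : 0 ≤ vs τ ρ V W y := by
  have har : ((AL τ V W).card : ℝ) + 1 ≤ V.card := by exact_mod_cast ha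
  unfold vs
  split_ifs with hW
  · exact div_nonneg hρ.1.le (by linarith)
  · have ha2r : ((AL τ V W).card : ℝ) + 2 ≤ V.card := by exact_mod_cast ha2 hW
    exact el_nonneg hρ.1.le (by linarith [hρ.2])

end TS

end R5
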