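import Pool.Agent.Work.MP_8b6acb_ts_helper77.Slot

/-!
# The functional of a light element (helper77)
-/

namespace R5

namespace TS

open Finset T7

variable {α : Type} [DecidableEq α]

/-- number of levels `1 ≤ i < j` at which `y` has no edge exit -/
def dc (τ : Finset α → Lab) (y : α) (p : List α) (j : ℕ) : ℕ :=
  ((Ico 1 j).filter (fun i => τ (insert y (pre p i)) ≠ Lab.B)).card

theorem dc_snoc {τ : Finset α → Lab} {y x : α} {p : List α} {j : ℕ} (hj : j ≤ p.length + 1) :
    dc τ y (p ++ [x]) j = dc τ y p j := by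
  unfold dc
  congr 1
  refine filter_congr fun i hi => ?_
  rw [mem_Ico] at hi
  rw [pre_snoc (by omega)]

theorem dc_le (τ : Finset α → Lab) (y : α) (p : List α) (j : ℕ) : dc τ y p j ≤ j - 1 := by
  unfold dc
  refine (card_filter_le _ _).trans ?_
  rw [Nat.card_Ico]

theorem dc_succ (τ : Finset α → Lab) (y : α) (p : List α) {j : ℕ} (hj : 1 ≤ j) :
    dc τ y p (j + 1) = dc τ y p j + if τ (insert y (pre p j)) ≠ Lab.B then 1 else 0 := by
  unfold dc
  have e : Ico 1 (j + 1) = insert j (Ico 1 j) := by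
    ext i
    simp only [mem_Ico, mem_insert]
    omega
  rw [e, filter_insert]
  split_ifs with h
  · rw [card_insert_of_notMem]
    intro h2
    have := (mem_filter.1 h2).1
    rw [mem_Ico] at this
    omega
  · rfl

theorem dc_one (τ : Finset α → Lab) (y : α) (p : List α) : dc τ y p 1 = 0 := by
  have := dc_le τ y p 1
  omega

theorem dc_zero (τ : Finset α → Lab) (y : α) (p : List α) : dc τ y p 0 = 0 := by
  have := dc_le τ y p 0
  omega

/-- penalty of a live light at the level `W` -/
noncomputable def pnl (τ : Finset α → Lab) (ρ : α → ℝ) (V W : Finset α) (y : α) : ℝ :=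
  if y ∈ AL τ V W then
    (1 - ρ y) / (if W = ∅ then (V.card : ℝ) - (AL τ V W).card
      else (V.card : ℝ) - (AL τ V W).card - 1) else 0

theorem Lf_el (m : ℕ) (s : ℝ) : Lf m s = el (m : ℝ) s := rfl

/-- `λ - κ(r) ≤ (1-r)/(m-1)` -/
theorem lam_sub_le {m : ℕ} (hm : 2 ≤ m) {r : ℝ} (h1 : r ≤ 1) :
    lamn m - Lf m r ≤ (1 - r) / ((m : ℝ) - 1) := by
  have hmr : (2 : ℝ) ≤ m := by exact_mod_cast hm
  rw [← Lf_one hm, Lf_el, Lf_el]
  have := el_tangent (M := (m : ℝ)) (x := r) (c := 1) (by linarith) (by linarith) (by linarith)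
  have h2 : (r - 1) / ((m : ℝ) - 1) = -((1 - r) / ((m : ℝ) - 1)) := by ring
  linarith

theorem one_sub_le {r : ℝ} (h0 : 0 < r) : 1 - r ≤ -Real.log r := by
  have := Real.log_le_sub_one_of_pos h0
  linarith

/-- the scalar inequality of the lights -/
theorem light_scal {m t a N d : ℕ} {r : ℝ} (h0 : 0 < r) (h1 : r ≤ 1) (htm : t < m) (ha : 1 ≤ a)
    (hN : N + a + t ≤ m) (hd : d ≤ t - 1) :
    (N : ℝ) * ((1 - r) / (if t = 0 then (m : ℝ) - a else (m : ℝ) - a - 1)) +
      (lamn m - Lf m r) * d ≤ -Real.log r := by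
  have hq := one_sub_le h0
  have hNr : (N : ℝ) + a + t ≤ m := by exact_mod_cast hN
  have hN0 : (0 : ℝ) ≤ N := Nat.cast_nonneg _
  have ha1 : (1 : ℝ) ≤ a := by exact_mod_cast ha
  have e0 : 0 ≤ 1 - r := by linarith
  rcases Nat.eq_zero_or_pos t with ht | ht
  · have hd0 : d = 0 := by omega
    rw [if_pos ht, hd0, ht] at *
    simp only [Nat.cast_zero, mul_zero, add_zero] at *
    have h2 : (N : ℝ) * ((1 - r) / ((m : ℝ) - a)) ≤ 1 - r := by
      rcases eq_or_lt_of_le (by linarith : (0 : ℝ) ≤ (m : ℝ) - a) with h3 | h3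
      · rw [← h3, div_zero, mul_zero]
        exact e0
      · rw [mul_div_assoc', div_le_iff₀ h3]
        have : (N : ℝ) ≤ (m : ℝ) - a := by linarith
        nlinarith
    linarith
  · rw [if_neg (by omega)]
    have hm2 : 2 ≤ m := by omega
    have hmr : (2 : ℝ) ≤ m := by exact_mod_cast hm2
    have ht1 : (1 : ℝ) ≤ t := by exact_mod_cast ht
    have hdr : (d : ℝ) ≤ (t : ℝ) - 1 := by
      have : d + 1 ≤ t := by omega
      have : (d : ℝ) + 1 ≤ t := by exact_mod_cast this
      linarith
    have hd0 : (0 : ℝ) ≤ d := Nat.cast_nonneg _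
    have h2 : (lamn m - Lf m r) * d ≤ (1 - r) / ((m : ℝ) - 1) * ((t : ℝ) - 1) := by
      have h3 := lam_sub_le hm2 h1
      have h4 : 0 ≤ (1 - r) / ((m : ℝ) - 1) := div_nonneg e0 (by linarith)
      calc (lamn m - Lf m r) * d ≤ (1 - r) / ((m : ℝ) - 1) * d :=
            mul_le_mul_of_nonneg_right h3 hd0
        _ ≤ _ := mul_le_mul_of_nonneg_left hdr h4
    rcases eq_or_lt_of_le (by linarith : (0 : ℝ) ≤ (m : ℝ) - a - 1) with h3 | h3
    · -- `t = 1`, `N = 0`
      rw [← h3, div_zero, mul_zero]
      have : (t : ℝ) = 1 := by linarith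
      rw [this] at h2
      simp only [sub_self, mul_zero] at h2
      linarith
    · have h4 : (N : ℝ) * ((1 - r) / ((m : ℝ) - a - 1)) ≤
          (1 - r) * (1 - ((t : ℝ) - 1) / ((m : ℝ) - a - 1)) := by
        rw [mul_div_assoc', div_le_iff₀ h3]
        have h5 : (1 - r) * (1 - ((t : ℝ) - 1) / ((m : ℝ) - a - 1)) * ((m : ℝ) - a - 1) =
            (1 - r) * ((m : ℝ) - a - t) := by
          field_simp
          ring
        rw [h5]
        have : (N : ℝ) ≤ (m : ℝ) - a - t := by linarith
        nlinarith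
      have h5 : (1 - r) / ((m : ℝ) - 1) * ((t : ℝ) - 1) ≤
          (1 - r) * (((t : ℝ) - 1) / ((m : ℝ) - a - 1)) := by
        rw [div_mul_eq_mul_div, mul_div_assoc]
        apply mul_le_mul_of_nonneg_left _ e0
        exact div_le_div_of_nonneg_left (by linarith) h3 (by linarith)
      nlinarith

/-- the functional of a light element -/
noncomputable def LY (τ : Finset α → Lab) (ρ : α → ℝ) (V : Finset α) (y : α) (p : List α) : ℝ :=
  ∑ k ∈ range p.length,
    (iE τ p k * (if y ∈ nx p k then -Real.log (ρ y) -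
        (lamn V.card - Lf V.card (ρ y)) * dc τ y p k else 0) -
      (iA τ p (k + 1) + iX τ p k) * pnl τ ρ V (pre p k) y)

theorem LY_snoc {τ : Finset α → Lab} {ρ : α → ℝ} {V : Finset α} {y x : α} {p : List α}
    (hx : x ∉ p) :
    LY τ ρ V y (p ++ [x]) = LY τ ρ V y p + iA τ p p.length *
      ((if τ (insert x p.toFinset) = Lab.B then 1 else 0) * (if y = x then -Real.log (ρ y) -
        (lamn V.card - Lf V.card (ρ y)) * dc τ y p p.length else 0) -
      (if τ (insert x p.toFinset) = Lab.B then 0 else 1) * pnl τ ρ V p.toFinset y) := by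
  unfold LY
  rw [List.length_append, List.length_singleton, sum_range_succ]
  congr 1
  · refine sum_congr rfl fun k hk => ?_
    rw [mem_range] at hk
    rw [iE_snoc hk, nx_snoc hk, dc_snoc (by omega), iA_snoc (by omega), iX_snoc hk,
      pre_snoc hk.le]
  · rw [iE_snoc_last, nx_snoc_last hx, dc_snoc (by omega), iA_snoc_succ, iX_snoc_last,
      pre_snoc le_rfl, pre_length]
    simp only [mem_singleton]
    rcases hl : τ (insert x p.toFinset) with _ | _ | _ <;> simp <;> ring

theorem mem_AL {τ : Finset α → Lab} {V U : Finset α} {z : α} :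
    z ∈ AL τ V U ↔ (z ∈ V ∧ z ∉ U) ∧ τ {z} = Lab.B ∧ τ (insert z U) = Lab.B := by
  unfold AL
  rw [mem_filter, mem_sdiff]

/-- the average of the functional of a light element is not negative -/
theorem light_Av (τ : Finset α → Lab) (ρ : α → ℝ) (V : Finset α) (y : α)
    (hy : τ {y} = Lab.B) (hρ : 0 < ρ y ∧ ρ y ≤ 1) : 0 ≤ Av V (LY τ ρ V y) := by
  have h0 : LY τ ρ V y [] = 0 := by unfold LY; simp
  rw [← h0]
  apply step
  intro p hp hpV hl
  have hne : (V \ p.toFinset).Nonempty := by
    rw [← card_pos]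
    have h1 := card_sdiff_add_card_eq_card hpV
    rw [List.toFinset_card_of_nodup hp] at h1
    omega
  have hpos : (0 : ℝ) < ((V \ p.toFinset).card : ℝ) := by exact_mod_cast card_pos.2 hne
  rw [le_div_iff₀ hpos]
  have e1 : ∀ x ∈ V \ p.toFinset, LY τ ρ V y (p ++ [x]) = LY τ ρ V y p + iA τ p p.length *
      ((if τ (insert x p.toFinset) = Lab.B then 1 else 0) * (if y = x then -Real.log (ρ y) -
        (lamn V.card - Lf V.card (ρ y)) * dc τ y p p.length else 0) -
      (if τ (insert x p.toFinset) = Lab.B then 0 else 1) * pnl τ ρ V p.toFinset y) := by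
    intro x hx
    exact LY_snoc fun h => (mem_sdiff.1 hx).2 (List.mem_toFinset.2 h)
  rw [sum_congr rfl e1, sum_add_distrib, sum_const, nsmul_eq_mul, ← mul_sum]
  have hA := iA_nonneg τ p p.length
  suffices h : 0 ≤ ∑ x ∈ V \ p.toFinset,
      ((if τ (insert x p.toFinset) = Lab.B then (1 : ℝ) else 0) *
        (if y = x then -Real.log (ρ y) -
        (lamn V.card - Lf V.card (ρ y)) * dc τ y p p.length else 0) -
      (if τ (insert x p.toFinset) = Lab.B then 0 else 1) * pnl τ ρ V p.toFinset y) by
    have := mul_nonneg hA h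
    linarith [mul_comm (LY τ ρ V y p) ((V \ p.toFinset).card : ℝ)]
  rw [sum_sub_distrib, ← sum_mul]
  by_cases hyA : y ∈ AL τ V p.toFinset
  · have hyA' := mem_AL.1 hyA
    have e2 : ∑ x ∈ V \ p.toFinset, (if τ (insert x p.toFinset) = Lab.B then (1 : ℝ) else 0) *
        (if y = x then -Real.log (ρ y) -
        (lamn V.card - Lf V.card (ρ y)) * dc τ y p p.length else 0) = -Real.log (ρ y) -
        (lamn V.card - Lf V.card (ρ y)) * dc τ y p p.length := by
      rw [sum_eq_single y]
      · rw [if_pos hyA'.2.2, if_pos rfl, one_mul]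
      · intro x _ hxy
        have hyx : ¬ y = x := fun h => hxy h.symm
        rw [if_neg hyx, mul_zero]
      · intro h
        exact absurd (mem_sdiff.2 hyA'.1) h
    have e3 : ∑ x ∈ V \ p.toFinset, (if τ (insert x p.toFinset) = Lab.B then (0 : ℝ) else 1) =
        (((V \ p.toFinset).filter (fun x => ¬ τ (insert x p.toFinset) = Lab.B)).card : ℝ) := by
      rw [card_filter]
      push_cast
      refine sum_congr rfl fun x _ => ?_
      split_ifs <;> simp_all
    rw [e2, e3]
    unfold pnl
    rw [if_pos hyA]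
    have hN : ((V \ p.toFinset).filter (fun x => ¬ τ (insert x p.toFinset) = Lab.B)).card +
        (AL τ V p.toFinset).card + p.length ≤ V.card := by
      have h1 : (AL τ V p.toFinset).card ≤
          ((V \ p.toFinset).filter (fun x => τ (insert x p.toFinset) = Lab.B)).card := by
        apply card_le_card
        intro z hz
        have := mem_AL.1 hz
        exact mem_filter.2 ⟨mem_sdiff.2 this.1, this.2.2⟩
      have h2 := card_filter_add_card_filter_not (s := V \ p.toFinset)
        (fun x => τ (insert x p.toFinset) = Lab.B)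
      have h3 := card_sdiff_add_card_eq_card hpV
      rw [List.toFinset_card_of_nodup hp] at h3
      omega
    have h4 := light_scal (m := V.card) (t := p.length) (a := (AL τ V p.toFinset).card)
      (N := ((V \ p.toFinset).filter (fun x => ¬ τ (insert x p.toFinset) = Lab.B)).card)
      (d := dc τ y p p.length) hρ.1 hρ.2 hl (card_pos.2 ⟨y, hyA⟩) hN (dc_le _ _ _ _)
    have h5 : (p.toFinset = ∅) ↔ p.length = 0 := by
      rw [← card_eq_zero, List.toFinset_card_of_nodup hp]
    rw [if_congr h5 rfl rfl]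
    linarith
  · have e2 : ∑ x ∈ V \ p.toFinset, (if τ (insert x p.toFinset) = Lab.B then (1 : ℝ) else 0) *
        (if y = x then -Real.log (ρ y) -
        (lamn V.card - Lf V.card (ρ y)) * dc τ y p p.length else 0) = 0 := by
      apply sum_eq_zero
      intro x hx
      by_cases hxy : y = x
      · subst hxy
        have : ¬ τ (insert y p.toFinset) = Lab.B := by
          intro h
          exact hyA (mem_AL.2 ⟨mem_sdiff.1 hx, hy, h⟩)
        rw [if_neg this, zero_mul]
      · rw [if_neg hxy, mul_zero]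
    rw [e2]
    unfold pnl
    rw [if_neg hyA]
    simp

end TS

end R5
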