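import Pool.Agent.Work.MP_8b6acb_ts_helper77.Level

/-!
# The pointwise slot inequality of a full order (helper77)
-/

namespace R5

namespace TS

open Finset T7

variable {α : Type} [DecidableEq α]

theorem pre_succ_eq {V : Finset α} {π : List α} (hπ : π ∈ seqs V.card V) {j : ℕ}
    (hj : j < V.card) : ∃ x, x ∈ V ∧ x ∉ pre π j ∧ nx π j = {x} ∧
      pre π (j + 1) = insert x (pre π j) := by
  obtain ⟨x, hx⟩ := card_eq_one.1 (card_nx hπ hj)
  have hx1 : x ∈ pre π (j + 1) \ pre π j := by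
    have : x ∈ nx π j := by rw [hx]; exact mem_singleton_self x
    exact this
  have hx2 := mem_sdiff.1 hx1
  refine ⟨x, pre_subset_of_mem hπ _ hx2.1, hx2.2, hx, ?_⟩
  have h1 : nx π j ∪ pre π j = pre π (j + 1) := by
    unfold nx
    exact sdiff_union_of_subset (pre_mono (Nat.le_succ j))
  rw [← h1, hx]
  rfl

theorem fin_card_lt {τ : Finset α → Lab} {V : Finset α} {π : List α} (hπ : π ∈ seqs V.card V)
    {j K : ℕ} (hjK : j < K) (hK : K ≤ V.card) (hA : allA τ π (j + 1)) :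
    (fin τ (pre π K) (pre π j)).card + (pre π j).card < (pre π K).card := by
  obtain ⟨x, _, hxj, _, hx⟩ := pre_succ_eq hπ (show j < V.card by omega)
  have hxK : x ∈ pre π K := pre_mono (Nat.succ_le_of_lt hjK) (by
    show x ∈ pre π (j + 1)
    rw [hx]
    exact mem_insert_self _ _)
  have h1 : fin τ (pre π K) (pre π j) ⊆ (pre π K \ pre π j).erase x := by
    intro z hz
    unfold fin at hz
    rw [mem_filter] at hz
    refine mem_erase.2 ⟨?_, hz.1⟩
    rintro rfl
    apply hz.2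
    rw [← hx]
    exact hA (j + 1) (by simp)
  have h2 := card_le_card h1
  have h3 : x ∈ pre π K \ pre π j := mem_sdiff.2 ⟨hxK, hxj⟩
  rw [card_erase_of_mem h3, card_sdiff_of_subset (pre_mono hjK.le), card_pre_of_mem hπ hK,
    card_pre_of_mem hπ (by omega)] at h2
  rw [card_pre_of_mem hπ hK, card_pre_of_mem hπ (by omega)]
  omega

theorem AL_card_lt {τ : Finset α → Lab} {V : Finset α} {π : List α} (hπ : π ∈ seqs V.card V)
    {j : ℕ} (hj : j < V.card) (h : ¬ nx π j ⊆ AL τ V (pre π j)) :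
    (AL τ V (pre π j)).card + j + 1 ≤ V.card := by
  obtain ⟨x, hxV, hxj, hn, _⟩ := pre_succ_eq hπ hj
  have hxA : x ∉ AL τ V (pre π j) := by
    intro h1
    apply h
    rw [hn]
    exact singleton_subset_iff.2 h1
  have h1 : AL τ V (pre π j) ⊆ (V \ pre π j).erase x := by
    intro z hz
    have hz' := mem_AL.1 hz
    refine mem_erase.2 ⟨?_, mem_sdiff.2 hz'.1⟩
    rintro rfl
    exact hxA hz
  have h2 := card_le_card h1
  rw [card_erase_of_mem (mem_sdiff.2 ⟨hxV, hxj⟩),
    card_sdiff_of_subset (pre_subset_of_mem hπ j), card_pre_of_mem hπ hj.le] at h2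
  omega

theorem AL_card_lt_A {τ : Finset α → Lab} {V : Finset α} {π : List α} (hπ : π ∈ seqs V.card V)
    {j : ℕ} (hj : j < V.card) (h : τ (pre π (j + 1)) ≠ Lab.B) :
    (AL τ V (pre π j)).card + j + 1 ≤ V.card := by
  apply AL_card_lt hπ hj
  intro h1
  obtain ⟨x, _, _, hn, hx⟩ := pre_succ_eq hπ hj
  have : x ∈ AL τ V (pre π j) := h1 (by rw [hn]; exact mem_singleton_self x)
  apply h
  rw [hx]
  exact (mem_AL.1 this).2.2

/-- what is seen of `y` in the slot `j` -/
noncomputable def vw (τ : Finset α → Lab) (ρ : α → ℝ) (V O W : Finset α) (y : α) : ℝ :=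
  if y ∈ SV τ V O W then vs τ ρ V W y else 0

theorem SV_sub {τ : Finset α → Lab} {V O W : Finset α} (hO : O ⊆ V) : SV τ V O W ⊆ V := by
  unfold SV
  intro z hz
  rcases mem_union.1 (mem_sdiff.1 hz).1 with h1 | h1
  · exact (mem_sdiff.1 h1).1
  · unfold fin at h1
    exact hO (mem_sdiff.1 (mem_filter.1 h1).1).1

theorem sum_vw {τ : Finset α → Lab} {ρ : α → ℝ} {V O W : Finset α} (hO : O ⊆ V) :
    ∑ y ∈ SV τ V O W, vs τ ρ V W y = ∑ y ∈ V, vw τ ρ V O W y := by
  unfold vw
  rw [← sum_filter]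
  refine sum_congr ?_ fun _ _ => rfl
  ext z
  rw [mem_filter]
  exact ⟨fun h => ⟨SV_sub hO h, h⟩, fun h => h.2⟩

theorem vw_nonneg {τ : Finset α → Lab} {ρ : α → ℝ} {V O W : Finset α} {y : α}
    (hρ : 0 < ρ y ∧ ρ y ≤ 1) (ha : (AL τ V W).card + 1 ≤ V.card)
    (ha2 : W ≠ ∅ → (AL τ V W).card + 2 ≤ V.card) : 0 ≤ vw τ ρ V O W y := by
  unfold vw
  split_ifs
  · exact vs_nonneg hρ ha ha2
  · exact le_rfl

/-- a dead level is seen with at least `κ` -/
theorem kap_le_vs {τ : Finset α → Lab} {ρ : α → ℝ} {V W : Finset α} {y : α}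
    (hρ : 0 < ρ y ∧ ρ y ≤ 1) (hW : W ≠ ∅) (ha2 : (AL τ V W).card + 2 ≤ V.card) :
    Lf V.card (ρ y) ≤ vs τ ρ V W y := by
  unfold vs
  rw [if_neg hW, Lf_el]
  have ha2r : ((AL τ V W).card : ℝ) + 2 ≤ V.card := by exact_mod_cast ha2
  have : (0 : ℝ) ≤ (AL τ V W).card := Nat.cast_nonneg _
  exact el_anti hρ.1.le (by linarith [hρ.2]) (by linarith)

/-- one slot, heavy element -/
theorem vw_heavy {τ : Finset α → Lab} {ρ : α → ℝ} {V O W : Finset α} {h : α}
    (hρ : 0 < ρ h ∧ ρ h ≤ 1) (hh : τ {h} ≠ Lab.B) (hhV : h ∈ V)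
    (ha : (AL τ V W).card + 1 ≤ V.card) (ha2 : W ≠ ∅ → (AL τ V W).card + 2 ≤ V.card)
    (hWO : W ⊆ O) :
    (if h ∈ O then 0 else if W = ∅ then c0 τ ρ V h else
      if τ (insert h W) ≠ Lab.B then Lf V.card (ρ h) else 0) + Wx τ ρ V W h ≤
      vw τ ρ V O W h := by
  have hAL : h ∉ AL τ V W := fun h1 => hh (mem_AL.1 h1).2.1
  have hv0 := vw_nonneg (O := O) hρ ha ha2
  by_cases hO : h ∈ O
  · rw [if_pos hO, zero_add]
    unfold Wx
    split_ifs with h1
    · have h2 : h ∈ SV τ V O W := by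
        unfold SV fin
        rw [mem_sdiff, mem_union, mem_filter, mem_sdiff (s := O)]
        exact ⟨Or.inr ⟨⟨hO, h1.1⟩, by rw [h1.2.2]; decide⟩, hAL⟩
      unfold vw
      rw [if_pos h2]
      unfold vs
      rw [if_neg h1.2.1]
    · exact hv0
  · rw [if_neg hO]
    have hW : h ∉ W := fun h1 => hO (hWO h1)
    have h2 : h ∈ SV τ V O W := by
      unfold SV
      rw [mem_sdiff, mem_union, mem_sdiff]
      exact ⟨Or.inl ⟨hhV, hO⟩, hAL⟩
    unfold vw
    rw [if_pos h2]
    by_cases hW0 : W = ∅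
    · rw [if_pos hW0]
      unfold Wx vs c0
      rw [if_neg (fun h3 => h3.2.1 hW0), if_pos hW0, hW0, add_zero]
    · rw [if_neg hW0]
      by_cases hB : τ (insert h W) = Lab.B
      · unfold Wx vs
        rw [if_neg (by rw [hB]; simp), if_pos ⟨hW, hW0, hB⟩, if_neg hW0, zero_add]
      · unfold Wx
        rw [if_pos hB, if_neg (fun h3 => hB h3.2.2), add_zero]
        exact kap_le_vs hρ hW0 (ha2 hW0)

/-- the sum of the dead views -/
theorem sum_Cx (τ : Finset α → Lab) (ρ : α → ℝ) (V : Finset α) (h : α) (π : List α) (k : ℕ) :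
    ∑ j ∈ range k, (if j = 0 then c0 τ ρ V h else
      if τ (insert h (pre π j)) ≠ Lab.B then Lf V.card (ρ h) else 0) = Cx τ ρ V h π k := by
  induction k with
  | zero =>
    unfold Cx
    rw [dc_zero]
    simp
  | succ k ih =>
    rw [sum_range_succ, ih]
    unfold Cx
    rw [if_neg (Nat.succ_ne_zero k)]
    rcases Nat.eq_zero_or_pos k with hk | hk
    · subst hk
      rw [if_pos rfl, dc_zero, dc_one]
      simp
    · rw [dc_succ τ h π hk, if_neg (by omega), if_neg (by omega)]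
      split_ifs
      · push_cast; ring
      · push_cast; ring

theorem sum_kap (τ : Finset α → Lab) (ρ : α → ℝ) (V : Finset α) (y : α) (π : List α) (k : ℕ) :
    ∑ j ∈ range k, (if j = 0 then 0 else
      if τ (insert y (pre π j)) ≠ Lab.B then Lf V.card (ρ y) else 0) =
      (dc τ y π k : ℝ) * Lf V.card (ρ y) := by
  induction k with
  | zero => rw [dc_zero]; simp
  | succ k ih =>
    rw [sum_range_succ, ih]
    rcases Nat.eq_zero_or_pos k with hk | hk
    · subst hk
      rw [dc_zero, dc_one]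
      simp
    · rw [dc_succ τ y π hk, if_neg (by omega)]
      split_ifs
      · push_cast; ring
      · push_cast; ring

/-- the cardinality facts of the levels of an initial A-run -/
theorem lev_card {τ : Finset α → Lab} {V : Finset α} {π : List α} (hπ : π ∈ seqs V.card V)
    {j : ℕ} (hj : j < V.card) (h : τ (pre π (j + 1)) ≠ Lab.B) :
    (AL τ V (pre π j)).card + 1 ≤ V.card ∧
      (pre π j ≠ ∅ → (AL τ V (pre π j)).card + 2 ≤ V.card) := by
  have h1 := AL_card_lt_A hπ hj h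
  refine ⟨by omega, fun h2 => ?_⟩
  have h3 := card_pos.2 (nonempty_iff_ne_empty.2 h2)
  rw [card_pre_of_mem hπ hj.le] at h3
  omega

theorem pre_empty_iff {V : Finset α} {π : List α} (hπ : π ∈ seqs V.card V) {j : ℕ}
    (hj : j ≤ V.card) : pre π j = ∅ ↔ j = 0 := by
  rw [← card_eq_zero, card_pre_of_mem hπ hj]

/-- all slots of a heavy element -/
theorem vw_heavy_sum {τ : Finset α → Lab} {ρ : α → ℝ} {V : Finset α} {π : List α}
    (hπ : π ∈ seqs V.card V) {h : α} (hρ : 0 < ρ h ∧ ρ h ≤ 1) (hh : τ {h} ≠ Lab.B)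
    (hhV : h ∈ V) {k K : ℕ} (hkK : k ≤ K) (hK : K ≤ V.card) (hA : allA τ π k) :
    (if h ∈ pre π K then 0 else Cx τ ρ V h π k) + ∑ j ∈ range k, Wx τ ρ V (pre π j) h ≤
      ∑ j ∈ range k, vw τ ρ V (pre π K) (pre π j) h := by
  have h1 : (if h ∈ pre π K then 0 else Cx τ ρ V h π k) =
      ∑ j ∈ range k, (if h ∈ pre π K then 0 else if pre π j = ∅ then c0 τ ρ V h else
      if τ (insert h (pre π j)) ≠ Lab.B then Lf V.card (ρ h) else 0) := by
    split_ifs
    · simp
    · rw [← sum_Cx]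
      refine sum_congr rfl fun j hj => ?_
      rw [mem_range] at hj
      rw [if_congr (pre_empty_iff hπ (by omega)) rfl rfl]
  rw [h1, ← sum_add_distrib]
  refine sum_le_sum fun j hj => ?_
  rw [mem_range] at hj
  have h2 : τ (pre π (j + 1)) ≠ Lab.B := by
    rw [hA (j + 1) (by rw [mem_range]; omega)]
    decide
  have h3 := lev_card hπ (show j < V.card by omega) h2
  exact vw_heavy hρ hh hhV h3.1 h3.2 (pre_mono (by omega))

/-- all slots of a light element -/
theorem vw_light_sum {τ : Finset α → Lab} {ρ : α → ℝ} {V : Finset α} {π : List α}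
    (hπ : π ∈ seqs V.card V) {y : α} (hρ : 0 < ρ y ∧ ρ y ≤ 1)
    (hyV : y ∈ V) {k K : ℕ} (hkK : k ≤ K) (hK : K ≤ V.card) (hA : allA τ π k) :
    (if y ∈ pre π K then 0 else (dc τ y π k : ℝ) * Lf V.card (ρ y)) ≤
      ∑ j ∈ range k, vw τ ρ V (pre π K) (pre π j) y := by
  have h0 : ∀ j ∈ range k, 0 ≤ vw τ ρ V (pre π K) (pre π j) y := by
    intro j hj
    rw [mem_range] at hj
    have h2 : τ (pre π (j + 1)) ≠ Lab.B := by
      rw [hA (j + 1) (by rw [mem_range]; omega)]
      decide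
    have h3 := lev_card hπ (show j < V.card by omega) h2
    exact vw_nonneg hρ h3.1 h3.2
  split_ifs with hyK
  · exact sum_nonneg h0
  · rw [← sum_kap]
    refine sum_le_sum fun j hj => ?_
    have hj' := mem_range.1 hj
    have h2 : τ (pre π (j + 1)) ≠ Lab.B := by
      rw [hA (j + 1) (by rw [mem_range]; omega)]
      decide
    have h3 := lev_card hπ (show j < V.card by omega) h2
    split_ifs with hj0 hB
    · exact h0 j hj
    · have hW : pre π j ≠ ∅ := by
        rw [Ne, pre_empty_iff hπ (by omega)]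
        exact hj0
      have hyS : y ∈ SV τ V (pre π K) (pre π j) := by
        unfold SV
        rw [mem_sdiff, mem_union, mem_sdiff]
        exact ⟨Or.inl ⟨hyV, hyK⟩, fun h4 => hB (mem_AL.1 h4).2.2⟩
      unfold vw
      rw [if_pos hyS]
      exact kap_le_vs hρ hW (h3.2 hW)
    · exact h0 j hj

/-- the part of `y`, all levels -/
noncomputable def tY (τ : Finset α → Lab) (ρ : α → ℝ) (V : Finset α) (π : List α) (K k n : ℕ)
    (y : α) : ℝ :=
  if τ {y} = Lab.B then (if y ∈ pre π K then 0 else (dc τ y π k : ℝ) * Lf V.card (ρ y)) -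
    ∑ j ∈ range n, pnl τ ρ V (pre π j) y
  else (if y ∈ pre π K then 0 else Cx τ ρ V y π k) + ∑ j ∈ range k, Wx τ ρ V (pre π j) y

theorem pnl_heavy {τ : Finset α → Lab} {ρ : α → ℝ} {V W : Finset α} {y : α}
    (hy : τ {y} ≠ Lab.B) : pnl τ ρ V W y = 0 := by
  unfold pnl
  rw [if_neg (fun h => hy (mem_AL.1 h).2.1)]

/-- **the slots below the object**, `O = pre π K` -/
theorem point_sum {τ : Finset α → Lab} {ρ : α → ℝ} {V : Finset α}
    (hρ : ∀ x ∈ V, 0 < ρ x ∧ ρ x ≤ 1) {π : List α}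
    (hπ : π ∈ seqs V.card V) {k K : ℕ} (hkK : k ≤ K) (hK : K ≤ V.card) (hA : allA τ π k) :
    ∑ j ∈ range k, Lf V.card (AL τ V (pre π j)).card + ∑ y ∈ V, tY τ ρ V π K k k y ≤
      ∑ j ∈ range k, (Lf V.card (∑ x ∈ V \ pre π K, ρ x) + Real.log (((K : ℝ) - j) /
        ((K : ℝ) - j - ((fin τ (pre π K) (pre π j)).card : ℝ)))) := by
  have h1 : ∀ j ∈ range k, Lf V.card (AL τ V (pre π j)).card +
      ∑ y ∈ V, vw τ ρ V (pre π K) (pre π j) y - ∑ y ∈ V, pnl τ ρ V (pre π j) y ≤
      Lf V.card (∑ x ∈ V \ pre π K, ρ x) + Real.log (((K : ℝ) - j) /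
        ((K : ℝ) - j - ((fin τ (pre π K) (pre π j)).card : ℝ))) := by
    intro j hj
    rw [mem_range] at hj
    have h2 := levF τ ρ hρ (pre_subset_of_mem hπ K) (pre_mono (π := π) (by omega : j ≤ K))
      (fin_card_lt hπ (by omega) hK (allA_mono (by omega) hA))
    rw [card_pre_of_mem hπ hK, card_pre_of_mem hπ (by omega), sum_vw (pre_subset_of_mem hπ K)]
      at h2
    exact h2
  refine le_trans ?_ (sum_le_sum h1)
  rw [sum_sub_distrib, sum_add_distrib, sum_comm (s := range k) (t := V)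
    (f := fun j y => vw τ ρ V (pre π K) (pre π j) y), sum_comm (s := range k) (t := V)
    (f := fun j y => pnl τ ρ V (pre π j) y), add_sub_assoc, ← sum_sub_distrib]
  have h2 : ∑ y ∈ V, tY τ ρ V π K k k y ≤ ∑ y ∈ V, (∑ j ∈ range k,
      vw τ ρ V (pre π K) (pre π j) y - ∑ j ∈ range k, pnl τ ρ V (pre π j) y) := by
    refine sum_le_sum fun y hy => ?_
    unfold tY
    by_cases hB : τ {y} = Lab.B
    · rw [if_pos hB]
      have h3 := vw_light_sum hπ (hρ y hy) hy hkK hK hA (τ := τ)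
      linarith
    · rw [if_neg hB]
      have h3 := vw_heavy_sum hπ (hρ y hy) hB hy hkK hK hA
      have h4 : ∑ j ∈ range k, pnl τ ρ V (pre π j) y = 0 :=
        sum_eq_zero fun j _ => pnl_heavy hB
      linarith
  linarith

end TS

end R5
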