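import Pool.Agent.Work.MP_8b6acb_ts_helper77.Step

/-!
# Slot inequalities: tangents (helper77)
-/

namespace R5

namespace TS

open Finset T7

variable {α : Type} [DecidableEq α]

/-- slot cost with modulus `M` -/
noncomputable def el (M x : ℝ) : ℝ := -Real.log (1 - x / M)

theorem el_zero (M : ℝ) : el M 0 = 0 := by unfold el; simp

theorem el_nonneg {M x : ℝ} (h0 : 0 ≤ x) (hx : x < M) : 0 ≤ el M x := by
  unfold el
  have hM : 0 < M := lt_of_le_of_lt h0 hx
  have h1 : 0 < 1 - x / M := by rw [sub_pos, div_lt_one hM]; exact hx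
  have h2 : 1 - x / M ≤ 1 := by have := div_nonneg h0 hM.le; linarith
  have := Real.log_nonpos h1.le h2
  linarith

/-- `x/M ≤ el M x` -/
theorem div_le_el {M x : ℝ} (hM : 0 < M) (hx : x < M) : x / M ≤ el M x := by
  unfold el
  have h1 : 0 < 1 - x / M := by rw [sub_pos, div_lt_one hM]; exact hx
  have := Real.log_le_sub_one_of_pos h1
  linarith

/-- tangent -/
theorem el_tangent {M x c : ℝ} (hM : 0 < M) (hx : x < M) (hc : c < M) :
    el M c + (x - c) / (M - c) ≤ el M x := by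
  unfold el
  have h1 : 0 < 1 - x / M := by rw [sub_pos, div_lt_one hM]; exact hx
  have h2 : 0 < 1 - c / M := by rw [sub_pos, div_lt_one hM]; exact hc
  have h3 : Real.log ((1 - x / M) / (1 - c / M)) ≤ (1 - x / M) / (1 - c / M) - 1 :=
    Real.log_le_sub_one_of_pos (div_pos h1 h2)
  rw [Real.log_div h1.ne' h2.ne'] at h3
  have h4 : (1 - x / M) / (1 - c / M) - 1 = -((x - c) / (M - c)) := by
    have h5 : M - c ≠ 0 := (sub_pos.2 hc).ne'
    have h6 : (1 - c / M) = (M - c) / M := by field_simp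
    have h7 : (1 - x / M) = (M - x) / M := by field_simp
    rw [h6, h7]
    field_simp
    ring
  linarith

theorem el_mono {M x y : ℝ} (hxy : x ≤ y) (hM : 0 < M) (hy : y < M) : el M x ≤ el M y := by
  unfold el
  have h1 : 0 < 1 - y / M := by rw [sub_pos, div_lt_one hM]; exact hy
  have h2 : 1 - y / M ≤ 1 - x / M := by
    have := div_le_div_of_nonneg_right hxy hM.le
    linarith
  have := Real.log_le_log h1 h2
  linarith

/-- monotone in the modulus -/
theorem el_anti {M M' x : ℝ} (h0 : 0 ≤ x) (hx : x < M') (hM : M' ≤ M) : el M x ≤ el M' x := by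
  unfold el
  have hM' : 0 < M' := lt_of_le_of_lt h0 hx
  have h1 : 0 < 1 - x / M' := by rw [sub_pos, div_lt_one hM']; exact hx
  have h2 : 1 - x / M' ≤ 1 - x / M := by
    have := div_le_div_of_nonneg_left h0 hM' hM
    linarith
  have := Real.log_le_log h1 h2
  linarith

/-- superadditivity, two terms -/
theorem el_add {M x y : ℝ} (hx : 0 ≤ x) (hy : 0 ≤ y) (hxy : x + y < M) :
    el M x + el M y ≤ el M (x + y) := by
  unfold el
  have hM : 0 < M := lt_of_le_of_lt (add_nonneg hx hy) hxy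
  have h1 : 0 < 1 - x / M := by rw [sub_pos, div_lt_one hM]; linarith
  have h2 : 0 < 1 - y / M := by rw [sub_pos, div_lt_one hM]; linarith
  have h3 : 0 < 1 - (x + y) / M := by rw [sub_pos, div_lt_one hM]; exact hxy
  have h4 : 1 - (x + y) / M ≤ (1 - x / M) * (1 - y / M) := by
    have h5 := mul_nonneg (div_nonneg hx hM.le) (div_nonneg hy hM.le)
    have h6 : (x + y) / M = x / M + y / M := add_div x y M
    rw [h6]
    nlinarith
  have h5 := Real.log_le_log h3 h4
  rw [Real.log_mul h1.ne' h2.ne'] at h5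
  linarith

/-- superadditivity, sums -/
theorem el_sum {M : ℝ} {S : Finset α} {r : α → ℝ} (hr : ∀ y ∈ S, 0 ≤ r y)
    (hs : ∑ y ∈ S, r y < M) : ∑ y ∈ S, el M (r y) ≤ el M (∑ y ∈ S, r y) := by
  induction S using Finset.induction_on with
  | empty => simp [el_zero]
  | insert a S ha ih =>
    rw [sum_insert ha] at hs ⊢
    rw [sum_insert ha]
    have h1 : 0 ≤ r a := hr a (mem_insert_self _ _)
    have h2 : 0 ≤ ∑ y ∈ S, r y := sum_nonneg fun y hy => hr y (mem_insert_of_mem hy)
    have h3 := ih (fun y hy => hr y (mem_insert_of_mem hy)) (by linarith)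
    have h4 := el_add h1 h2 hs
    linarith

/-- chord -/
theorem el_chord {M x : ℝ} (hM : 1 < M) (h0 : 0 ≤ x) (h1 : x ≤ 1) : el M x ≤ x * el M 1 := by
  -- tangent at `x` applied at `0` and `1`
  have hM0 : 0 < M := by linarith
  have hxM : x < M := by linarith
  have t0 := el_tangent (x := 0) (c := x) hM0 hM0 hxM
  have t1 := el_tangent (x := 1) (c := x) hM0 hM hxM
  rw [el_zero] at t0
  have h2 : (1 - x) * (el M x + (0 - x) / (M - x)) ≤ (1 - x) * 0 :=
    mul_le_mul_of_nonneg_left t0 (by linarith)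
  have h3 : x * (el M x + (1 - x) / (M - x)) ≤ x * el M 1 := mul_le_mul_of_nonneg_left t1 h0
  have h4 : (1 - x) * (el M x + (0 - x) / (M - x)) + x * (el M x + (1 - x) / (M - x)) =
      el M x := by ring
  linarith

/-- **slot `j ≥ 1`** : `A` = live lights, `S` = the other visible elements -/
theorem slot_one {M : ℝ} (hM : 2 ≤ M) {A S : Finset α} {r : α → ℝ}
    (hA : ∀ y ∈ A, r y ≤ 1) (hS : ∀ y ∈ S, 0 ≤ r y ∧ r y ≤ 1)
    (hs : ∑ y ∈ S, r y - ∑ y ∈ A, (1 - r y) < M) :
    ∑ y ∈ S, el M (r y) - ∑ y ∈ A, (1 - r y) / (M - 1) ≤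
      el M (∑ y ∈ S, r y - ∑ y ∈ A, (1 - r y)) := by
  set X := ∑ y ∈ S, r y with hX
  set δ := ∑ y ∈ A, (1 - r y) with hδ
  have hδ0 : 0 ≤ δ := sum_nonneg fun y hy => by linarith [hA y hy]
  have hX0 : 0 ≤ X := sum_nonneg fun y hy => (hS y hy).1
  have hM0 : 0 < M := by linarith
  have hM1 : 0 < M - 1 := by linarith
  rw [← sum_div, ← hδ]
  rcases le_or_gt X 1 with h1 | h1
  · have t := el_tangent (x := X - δ) (c := X) hM0 hs (by linarith)
    have h2 : ∑ y ∈ S, el M (r y) ≤ el M X := el_sum (fun y hy => (hS y hy).1) (by linarith)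
    have h3 : (X - δ - X) / (M - X) = -(δ / (M - X)) := by ring
    have h4 : δ / (M - X) ≤ δ / (M - 1) := div_le_div_of_nonneg_left hδ0 hM1 (by linarith)
    linarith
  · have t := el_tangent (x := X - δ) (c := 1) hM0 hs (by linarith)
    have h2 : ∑ y ∈ S, el M (r y) ≤ X * el M 1 := by
      rw [hX, sum_mul]
      exact sum_le_sum fun y hy => el_chord (by linarith) (hS y hy).1 (hS y hy).2
    have h3 : (X - δ - 1) / (M - 1) = (X - 1) / (M - 1) - δ / (M - 1) := by ring
    have h4 : el M 1 ≤ 1 / (M - 1) := by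
      have t2 := el_tangent (x := 0) (c := 1) hM0 hM0 (by linarith)
      rw [el_zero] at t2
      have : (0 - 1) / (M - 1) = -(1 / (M - 1)) := by ring
      linarith
    have h5 : (X - 1) * el M 1 ≤ (X - 1) * (1 / (M - 1)) :=
      mul_le_mul_of_nonneg_left h4 (by linarith)
    have h6 : (X - 1) * (1 / (M - 1)) = (X - 1) / (M - 1) := by ring
    nlinarith

/-- **slot `0`** -/
theorem slot_zero {M : ℝ} (hM : 0 < M) {A S : Finset α} {r : α → ℝ}
    (hs : ∑ y ∈ S, r y - ∑ y ∈ A, (1 - r y) < M) :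
    ∑ y ∈ S, r y / M - ∑ y ∈ A, (1 - r y) / M ≤
      el M (∑ y ∈ S, r y - ∑ y ∈ A, (1 - r y)) := by
  rw [← sum_div, ← sum_div, ← sub_div]
  exact div_le_el hM hs

/-- from the modulus `m` to the modulus `m - a` -/
theorem Lf_split {m : ℕ} {a s : ℝ} (ha : a < m) (hs : s < m) (hm : (0 : ℝ) < m) :
    Lf m s = Lf m a + el (m - a) (s - a) := by
  unfold Lf el
  have h1 : 0 < 1 - a / (m : ℝ) := by rw [sub_pos, div_lt_one hm]; exact ha
  have h2 : 0 < 1 - s / (m : ℝ) := by rw [sub_pos, div_lt_one hm]; exact hs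
  have h3 : (0 : ℝ) < m - a := by linarith
  have h4 : 1 - (s - a) / (m - a) = (1 - s / (m : ℝ)) / (1 - a / (m : ℝ)) := by
    have h5 : (1 - a / (m : ℝ)) = (m - a) / m := by field_simp
    have h6 : (1 - s / (m : ℝ)) = (m - s) / m := by field_simp
    rw [h5, h6]
    field_simp
    ring
  rw [h4, Real.log_div h2.ne' h1.ne']
  ring

/-- the Gibbs step: passed live elements are seen with weight one -/
theorem slot_gibbs {m : ℕ} {s κ f : ℝ} (hm : (0 : ℝ) < m) (hs : 0 ≤ s) (hκ : 0 < κ)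
    (hf : 0 ≤ f) (hfκ : f < κ) (hsκ : s + κ ≤ m) :
    Lf m (s + f) ≤ Lf m s + Real.log (κ / (κ - f)) := by
  unfold Lf
  have h1 : 0 < 1 - s / (m : ℝ) := by rw [sub_pos, div_lt_one hm]; linarith
  have h2 : 0 < 1 - (s + f) / (m : ℝ) := by rw [sub_pos, div_lt_one hm]; linarith
  have h3 : 0 < (κ - f) / κ := div_pos (by linarith) hκ
  have h4 : Real.log (κ / (κ - f)) = -Real.log ((κ - f) / κ) := by
    rw [← Real.log_inv, inv_div]
  rw [h4]
  have h5 : (1 - s / (m : ℝ)) * ((κ - f) / κ) ≤ 1 - (s + f) / (m : ℝ) := by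
    have h6 : 1 - (s + f) / (m : ℝ) - (1 - s / (m : ℝ)) * ((κ - f) / κ) =
        f * (m - κ - s) / (m * κ) := by
      field_simp
      ring
    have h7 : 0 ≤ f * (m - κ - s) / (m * κ) :=
      div_nonneg (mul_nonneg hf (by linarith)) (mul_nonneg hm.le hκ.le)
    linarith
  have h6 := Real.log_le_log (mul_pos h1 h3) h5
  rw [Real.log_mul h1.ne' h3.ne'] at h6
  linarith

end TS

end R5
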