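import Pool.Agent.Work.MP_8b6acb_ti.CT0

/-!
# Functionals of prefixes whose average does not decrease (helper77)
-/

namespace R5

namespace TS

open Finset T7

variable {α : Type} [DecidableEq α]

/-- the step lemma, from a prefix -/
theorem step_from {V : Finset α} (Ψ : List α → ℝ)
    (h : ∀ p : List α, p.Nodup → p.toFinset ⊆ V → p.length < V.card →
      Ψ p ≤ (∑ x ∈ V \ p.toFinset, Ψ (p ++ [x])) / ((V \ p.toFinset).card : ℝ)) :
    ∀ (n : ℕ) (p : List α), p.Nodup → p.toFinset ⊆ V → (V \ p.toFinset).card = n →
      Ψ p ≤ Av (V \ p.toFinset) (fun π => Ψ (p ++ π)) := by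
  intro n
  induction n with
  | zero =>
    intro p _ _ hn
    rw [card_eq_zero.1 hn, Av_empty, List.append_nil]
  | succ n ih =>
    intro p hp hpV hn
    have hne : (V \ p.toFinset).Nonempty := card_pos.1 (by omega)
    have hlen : p.length < V.card := by
      rw [← List.toFinset_card_of_nodup hp]
      have := card_sdiff_add_card_eq_card hpV
      omega
    rw [Av_cons hne]
    refine (h p hp hpV hlen).trans ?_
    refine div_le_div_of_nonneg_right (sum_le_sum fun x hx => ?_) (Nat.cast_nonneg _)
    have hx' := mem_sdiff.1 hx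
    have hxp : x ∉ p := fun hm => hx'.2 (List.mem_toFinset.2 hm)
    have e1 : (p ++ [x]).toFinset = insert x p.toFinset := by
      rw [List.toFinset_append, List.toFinset_cons, List.toFinset_nil, union_comm]
      rfl
    have e2 : V \ (p ++ [x]).toFinset = (V \ p.toFinset).erase x := by
      rw [e1, ← sdiff_erase_eq]
    have h1 := ih (p ++ [x]) (by
        rw [List.nodup_append]
        exact ⟨hp, List.nodup_singleton x, by
          intro a ha b hb
          rw [List.mem_singleton] at hb
          rw [hb]
          rintro rfl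
          exact hxp ha⟩)
      (by
        rw [e1]
        exact insert_subset hx'.1 hpV)
      (by rw [e2, card_erase_of_mem hx, hn]; rfl)
    rw [e2] at h1
    refine h1.trans (le_of_eq ?_)
    refine Av_congr fun π _ => ?_
    rw [List.append_assoc]
    rfl

/-- **the step lemma** -/
theorem step {V : Finset α} (Ψ : List α → ℝ)
    (h : ∀ p : List α, p.Nodup → p.toFinset ⊆ V → p.length < V.card →
      Ψ p ≤ (∑ x ∈ V \ p.toFinset, Ψ (p ++ [x])) / ((V \ p.toFinset).card : ℝ)) :
    Ψ [] ≤ Av V Ψ := by
  have := step_from Ψ h V.card [] List.nodup_nil (by simp) (by simp)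
  simpa using this

/-- the step lemma, upper bounds -/
theorem step_le {V : Finset α} (Ψ : List α → ℝ)
    (h : ∀ p : List α, p.Nodup → p.toFinset ⊆ V → p.length < V.card →
      (∑ x ∈ V \ p.toFinset, Ψ (p ++ [x])) / ((V \ p.toFinset).card : ℝ) ≤ Ψ p) :
    Av V Ψ ≤ Ψ [] := by
  have h1 := step (V := V) (fun p => -Ψ p) (by
    intro p hp hpV hl
    have := h p hp hpV hl
    rw [sum_neg_distrib, neg_div]
    linarith)
  rw [Av_neg] at h1
  linarith

/-! ### index functions along `p ++ [x]` -/

theorem pre_snoc {p : List α} {x : α} {i : ℕ} (h : i ≤ p.length) : pre (p ++ [x]) i = pre p i :=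
  pre_append_le h

theorem pre_length (p : List α) : pre p p.length = p.toFinset := pre_of_ge le_rfl

theorem pre_snoc_succ {p : List α} {x : α} :
    pre (p ++ [x]) (p.length + 1) = insert x p.toFinset := by
  rw [pre_of_ge (by simp), List.toFinset_append, List.toFinset_cons, List.toFinset_nil, union_comm]
  rfl

theorem iA_snoc {τ : Finset α → Lab} {p : List α} {x : α} {i : ℕ} (h : i ≤ p.length) :
    iA τ (p ++ [x]) i = iA τ p i := iA_congr (allA_append h)

theorem iE_snoc {τ : Finset α → Lab} {p : List α} {x : α} {i : ℕ} (h : i < p.length) :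
    iE τ (p ++ [x]) i = iE τ p i := by
  apply iE_congr
  unfold exE
  rw [allA_append h.le, pre_snoc h]

theorem iX_snoc {τ : Finset α → Lab} {p : List α} {x : α} {i : ℕ} (h : i < p.length) :
    iX τ (p ++ [x]) i = iX τ p i := by
  apply iX_congr
  unfold exX
  rw [allA_append h.le, pre_snoc h]

theorem iA_snoc_succ {τ : Finset α → Lab} {p : List α} {x : α} :
    iA τ (p ++ [x]) (p.length + 1) =
      iA τ p p.length * (if τ (insert x p.toFinset) = Lab.A then 1 else 0) := by
  unfold iA
  have : allA τ (p ++ [x]) (p.length + 1) ↔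
      allA τ p p.length ∧ τ (insert x p.toFinset) = Lab.A := by
    rw [allA_succ, allA_append le_rfl, pre_snoc_succ]
  rw [if_congr this rfl rfl]
  by_cases h1 : allA τ p p.length <;> by_cases h2 : τ (insert x p.toFinset) = Lab.A <;>
    simp [h1, h2]

theorem iE_snoc_last {τ : Finset α → Lab} {p : List α} {x : α} :
    iE τ (p ++ [x]) p.length =
      iA τ p p.length * (if τ (insert x p.toFinset) = Lab.B then 1 else 0) := by
  unfold iE iA
  have : exE τ (p ++ [x]) p.length ↔
      allA τ p p.length ∧ τ (insert x p.toFinset) = Lab.B := by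
    unfold exE
    rw [allA_append le_rfl, pre_snoc_succ]
  rw [if_congr this rfl rfl]
  by_cases h1 : allA τ p p.length <;> by_cases h2 : τ (insert x p.toFinset) = Lab.B <;>
    simp [h1, h2]

theorem iX_snoc_last {τ : Finset α → Lab} {p : List α} {x : α} :
    iX τ (p ++ [x]) p.length =
      iA τ p p.length * (if τ (insert x p.toFinset) = Lab.X then 1 else 0) := by
  unfold iX iA
  have : exX τ (p ++ [x]) p.length ↔
      allA τ p p.length ∧ τ (insert x p.toFinset) = Lab.X := by
    unfold exX
    rw [allA_append le_rfl, pre_snoc_succ]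
  rw [if_congr this rfl rfl]
  by_cases h1 : allA τ p p.length <;> by_cases h2 : τ (insert x p.toFinset) = Lab.X <;>
    simp [h1, h2]

theorem nx_snoc {p : List α} {x : α} {i : ℕ} (h : i < p.length) : nx (p ++ [x]) i = nx p i := by
  unfold nx
  rw [pre_snoc h, pre_snoc h.le]

theorem nx_snoc_last {p : List α} {x : α} (hx : x ∉ p) : nx (p ++ [x]) p.length = {x} := by
  unfold nx
  rw [pre_snoc_succ, pre_snoc le_rfl, pre_length]
  ext y
  rw [mem_sdiff, mem_insert, mem_singleton]
  constructor
  · rintro ⟨h1 | h1, h2⟩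
    · exact h1
    · exact absurd h1 h2
  · rintro rfl
    exact ⟨Or.inl rfl, fun h => hx (List.mem_toFinset.1 h)⟩

end TS

end R5
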